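import Pool.Agent.MP_8c549f_pr.EX.Spec

/-! The speed from renewal times. -/

set_option autoImplicit false

namespace Pool.Agent.MP_8c549f_pr.EX

open MeasureTheory Filter Topology Real

namespace AnA

theorem sh0 {u : ℕ → ℝ} {c B : ℝ} (h : Tendsto (fun k : ℕ => u k / k) atTop (𝓝 B)) :
    Tendsto (fun k : ℕ => (c + u k) / k) atTop (𝓝 B) := by
  have := (tendsto_const_div_atTop_nhds_zero_nat c).add h
  rw [zero_add] at this
  exact this.congr fun k => (add_div _ _ _).symm

theorem sh1 {u : ℕ → ℝ} {c B : ℝ} (h : Tendsto (fun k : ℕ => u k / k) atTop (𝓝 B)) :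
    Tendsto (fun k : ℕ => (c + u (k + 1)) / k) atTop (𝓝 B) := by
  have h1 := h.comp (tendsto_add_atTop_nat 1)
  have h2 : Tendsto (fun k : ℕ => (1 + (k : ℝ)) / k) atTop (𝓝 1) :=
    sh0 (u := fun k => (k : ℝ)) (tendsto_const_nhds.congr' (by
      filter_upwards [eventually_gt_atTop 0] with k hk
      exact (div_self (by exact_mod_cast hk.ne')).symm))
  have h3 := h1.mul h2
  rw [mul_one] at h3
  refine sh0 (u := fun k => u (k + 1)) (h3.congr fun k => ?_)
  have : ((k : ℝ) + 1) ≠ 0 := by positivity
  simp only [Function.comp]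
  push_cast
  rw [add_comm (1 : ℝ), div_mul_div_comm, mul_comm ((k : ℝ) + 1), mul_div_mul_right _ _ this]

end AnA

open AnA in
theorem an : ANStmt := by
  intro S T x a c B hS hk h hT
  have ex : ∀ n, ∃ k, a ≤ n →
      a + S k ≤ n ∧ n < a + S (k + 1) ∧ c + T k ≤ x n ∧ x n ≤ c + T (k + 1) := fun n => by
    by_cases hn : a ≤ n
    · obtain ⟨k, hk⟩ := h n hn
      exact ⟨k, fun _ => hk⟩
    · exact ⟨0, fun t => absurd t hn⟩
  choose k hk' using ex
  have kt : Tendsto k atTop atTop := tendsto_atTop.2 fun K => by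
    filter_upwards [eventually_ge_atTop (a + S (K + 1))] with n hn
    by_contra t
    have h1 := (hk' n (by omega)).2.1
    have h2 := hS (show k n + 1 ≤ K + 1 by omega)
    omega
  have xb : Tendsto (fun n => (x n : ℝ) / k n) atTop (𝓝 B) := by
    refine tendsto_of_tendsto_of_tendsto_of_le_of_le' ((sh0 (c := c) hT).comp kt)
      ((sh1 (u := fun k => (T k : ℝ)) (c := c) hT).comp kt) ?_ ?_
    · filter_upwards [eventually_ge_atTop a] with n hn
      exact div_le_div_of_nonneg_right (by exact_mod_cast (hk' n hn).2.2.1) (Nat.cast_nonneg _)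
    · filter_upwards [eventually_ge_atTop a] with n hn
      exact div_le_div_of_nonneg_right (by exact_mod_cast (hk' n hn).2.2.2) (Nat.cast_nonneg _)
  have eq : (fun n : ℕ => ((x n : ℝ) / k n) / ((n : ℝ) / k n)) =ᶠ[atTop]
      fun n : ℕ => (x n : ℝ) / n := by
    filter_upwards [kt.eventually_gt_atTop 0] with n hn
    exact div_div_div_cancel_right₀ (by exact_mod_cast hn.ne') _ _
  refine ⟨fun A hA => ?_, fun hA => ?_⟩
  · have A1 : 1 ≤ A := ge_of_tendsto hA (by
      filter_upwards [eventually_gt_atTop 0] with k h0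
      rw [le_div_iff₀ (by exact_mod_cast h0), one_mul]
      exact_mod_cast hk k)
    have nb : Tendsto (fun n : ℕ => (n : ℝ) / k n) atTop (𝓝 A) := by
      refine tendsto_of_tendsto_of_tendsto_of_le_of_le' ((sh0 (c := a) hA).comp kt)
        ((sh1 (u := fun k => (S k : ℝ)) (c := a) hA).comp kt) ?_ ?_
      · filter_upwards [eventually_ge_atTop a] with n hn
        exact div_le_div_of_nonneg_right (by exact_mod_cast (hk' n hn).1) (Nat.cast_nonneg _)
      · filter_upwards [eventually_ge_atTop a] with n hn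
        exact div_le_div_of_nonneg_right (by exact_mod_cast (hk' n hn).2.1.le) (Nat.cast_nonneg _)
    exact (xb.div nb (by linarith)).congr' eq
  · have nb : Tendsto (fun n : ℕ => (n : ℝ) / k n) atTop atTop := by
      refine tendsto_atTop_mono' _ ?_ (hA.comp kt)
      filter_upwards [eventually_ge_atTop a] with n hn
      exact div_le_div_of_nonneg_right
        (by exact_mod_cast (Nat.le_add_left _ _).trans (hk' n hn).1) (Nat.cast_nonneg _)
    exact (xb.div_atTop nb).congr' eq

end Pool.Agent.MP_8c549f_pr.EX
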