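import Pool.Agent.MP_8c549f_pr.EX.Spec

/-!
PROJECT EX: the level is unbounded, and the assembly for one bias.
-/

set_option autoImplicit false

namespace Pool.Agent.MP_8c549f_pr.EX

open MeasureTheory Filter Topology Real
open scoped ENNReal NNReal

theorem sup (hN : NULStmt) (hB : BACKStmt) (hF : FRStmt) (hV : VIStmt) (hC : COLStmt) :
    SUPStmt := by
  intro D p lam h0 h1 hl hT P hP
  obtain ⟨n1, -, n3, n4⟩ := hN D p lam h0.le h1 P hP
  have := perc_prob D h0.le h1
  have a1 : ∀ᵐ z ∂P, ∀ m k : ℕ, ∀ s, Fol z s → {t | Fresh m k (pre s t)}.Finite := by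
    refine ae_all_iff.2 fun m => ae_all_iff.2 fun k => ?_
    obtain ⟨σ, s0, s1⟩ := hF D p lam h0 h1 m k
    exact n4 _ σ s0 s1
  have a2 : ∀ᵐ z ∂P, ∀ (m : ℕ) (x : V D), ∀ s, Fol z s → {t | Vis m x (pre s t)}.Finite := by
    refine ae_all_iff.2 fun m => ae_all_iff.2 fun x => n3 _ ?_
    have := tendsto_lintegral_filter_of_dominated_convergence
      (μ := (perc D p).restrict (InfCl D)) (l := atTop)
      (F := fun J ω => SS (Tr (Vis m x) J) (W lam ω 0)) (f := fun _ => 0) (fun _ => 1)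
      (Eventually.of_forall fun J => measurable_SS fun l => measurable_W lam 0 l) ?_ (by simp) ?_
    · simpa using this
    · have hm : ∀ᵐ ω ∂(perc D p).restrict (InfCl D), ∀ J, SS (Tr (Vis m x) J) (W lam ω 0) ≤ 1 := by
        refine Eventually.of_forall fun ω J => kraft lam ω ?_ 0
        classical
        rintro u ⟨u1, u2⟩ l ⟨-, l2⟩ ⟨t, rfl⟩
        by_contra hne
        have ht : u.length < (u ++ t).length := by
          rcases t with _ | ⟨s, t⟩
          · simp at hne
          · simp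
        have e1 : Nat.count (fun i => Vis m x ((u ++ t).take i)) u.length =
            Nat.count (fun i => Vis m x (u.take i)) u.length := by
          rw [Nat.count_eq_card_filter_range, Nat.count_eq_card_filter_range]
          congr 1
          refine Finset.filter_congr fun i hi => ?_
          rw [List.take_append_of_le_length (Finset.mem_range.1 hi).le]
        have e2 := Nat.count_strict_mono (p := fun i => Vis m x ((u ++ t).take i)) (m := u.length)
          (by simpa using u1) ht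
        have e3 : Nat.count (fun i => Vis m x (u.take i)) u.length = J := by convert u2
        have e4 : Nat.count (fun i => Vis m x ((u ++ t).take i)) (u ++ t).length = J := by
          convert l2
        omega
      exact Eventually.of_forall fun J => hm.mono fun ω h => h J
    · filter_upwards [ae_restrict_of_ae hT, ae_restrict_mem Law.meas_inf] with ω b1 b2
      exact hV D lam ω m x (b1 b2 m)
  filter_upwards [n1, a1, a2, hB D p lam h0.le h1 hl P hP] with z ⟨s, hs⟩ b1 b2 ⟨k, b3⟩ m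
  by_contra hcon
  push Not at hcon
  refine b3 ?_
  simp only [hs.lev] at hcon ⊢
  exact hC D s m k hcon (b1 m k s hs) fun x => b2 m x s hs

theorem tend_top {g : ℕ → ℕ} (h : ∀ R : ℝ, ∃ (f : ℕ → ℕ) (a : ℝ), R ≤ a ∧ (∀ i, f i ≤ g i) ∧
    Tendsto (fun k : ℕ => (∑ i ∈ Finset.range k, (f i : ℝ)) / k) atTop (𝓝 a)) :
    Tendsto (fun k : ℕ => ((∑ i ∈ Finset.range k, g i : ℕ) : ℝ) / k) atTop atTop := by
  refine tendsto_atTop.2 fun R => ?_
  obtain ⟨f, a, h1, h2, h3⟩ := h (R + 1)
  filter_upwards [h3.eventually (lt_mem_nhds (show R < a by linarith))] with k hk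
  refine hk.le.trans (div_le_div_of_nonneg_right ?_ (Nat.cast_nonneg k))
  push_cast
  exact Finset.sum_le_sum fun i _ => Nat.cast_le.2 (h2 i)

theorem gen (hL : LAWXStmt) (hI : INFStmt) (hN : NULStmt) (hS : SUPStmt) (hQ : CQStmt)
    (hC : CCStmt) (hE : SEQStmt) (hB : BLStmt) (hD : DETStmt) (hA : ANStmt) : GENStmt := by
  intro D p lam h0 h1 hl hT hq hb hBB
  classical
  obtain ⟨P, hP⟩ := hL D p lam h0.le h1 (hI D p lam h0 h1 hl.le hq)
  obtain ⟨n1, -, -, n4⟩ := hN D p lam h0.le h1 P hP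
  obtain ⟨σ, s0, s1⟩ := hQ D p lam h0 h1 hq
  have c1 : ∀ᵐ z ∂P, ∃ u β, Cand u u.length ∧ Sq u z β := by
    filter_upwards [n1, n4 _ σ s0 s1, hS D p lam h0 h1 hl hT P hP,
      hE D p lam h0.le h1 hl.le hb P hP] with z ⟨s, hs⟩ b1 b2 b3
    by_contra hcon
    refine hC D s (by simpa only [hs.lev] using b2) (fun t ht => ?_) (b1 s hs)
    by_contra hn
    push Not at hn
    obtain ⟨β, hβ⟩ := b3 (pre s t) (by simpa using ht) ⟨hs t, fun n h => by
      rw [hs.lev]; exact hn n (by simpa using h)⟩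
    exact hcon ⟨_, β, by simpa using ht, hβ⟩
  have c2 := hB D p lam h0.le h1 hl.le hb P hP (fun l => (lev l).toNat) hBB
  have key : ∀ (z : Om D) u β, Sq u z β →
      Tendsto (fun k : ℕ => (∑ i ∈ Finset.range k, (((lev (β i)).toNat : ℕ) : ℝ)) / k) atTop
        (𝓝 (BR D p lam)) → _ := fun z u β h3 h4 =>
    hA (fun k => ∑ i ∈ Finset.range k, (β i).length) (fun k => ∑ i ∈ Finset.range k, (lev (β i)).toNat)
      (fun n => z.2 n 0) u.length (lev u) (BR D p lam)
      (fun a b hab => Finset.sum_le_sum_of_subset (Finset.range_mono hab))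
      (fun k => by
        simpa using Finset.sum_le_sum (s := Finset.range k) fun i _ => (h3.1 i).2.1.1)
      (hD D u z β h3) (by simpa only [Nat.cast_sum] using h4)
  by_cases hAA : AA D p lam = ∞
  · refine ⟨0, P, hP, ?_⟩
    have c3 : ∀ᵐ z ∂P, ∀ R : ℕ, ∀ u β, Cand u u.length → Sq u z β →
        ∃ (f : ℕ → ℕ) (a : ℝ), (R : ℝ) ≤ a ∧ (∀ i, f i ≤ (β i).length) ∧
          Tendsto (fun k : ℕ => (∑ i ∈ Finset.range k, (f i : ℝ)) / k) atTop (𝓝 a) := by
      refine ae_all_iff.2 fun R => ?_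
      obtain ⟨M, m1, m2⟩ := TransM.exists_trunc hb hAA R
      filter_upwards [hB D p lam h0.le h1 hl.le hb P hP (fun l => min l.length M) m1]
        with z hz u β a1 a2
      exact ⟨fun i => min (β i).length M, _, m2, fun i => min_le_left _ _, hz u β a1 a2⟩
    filter_upwards [c1, c2, c3] with z ⟨u, β, a1, a2⟩ b2 b3
    refine (key z u β a2 (b2 u β a1 a2)).2 (tend_top fun R => ?_)
    obtain ⟨f, a, e1, e2, e3⟩ := b3 ⌈R⌉₊ u β a1 a2
    exact ⟨f, a, (Nat.le_ceil R).trans e1, e2, e3⟩
  · refine ⟨BR D p lam / AR D p lam, P, hP, ?_⟩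
    filter_upwards [c1, c2, hB D p lam h0.le h1 hl.le hb P hP List.length hAA]
      with z ⟨u, β, a1, a2⟩ b2 b3
    exact (key z u β a2 (b2 u β a1 a2)).1 _ (by simpa only [Nat.cast_sum, AR, AA] using b3 u β a1 a2)

end Pool.Agent.MP_8c549f_pr.EX
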