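import Pool.Agent.MP_8c549f_pr.EX.Spec

/-!
PROJECT EX: the strong law along the blocks.
-/

set_option autoImplicit false

namespace Pool.Agent.MP_8c549f_pr.EX

open MeasureTheory Filter Topology Real
open scoped ENNReal NNReal

theorem bl (h1 : EXAStmt) (h2 : SLStmt) : BLStmt := by
  intro D p lam h0 h1' hl hS P hP f hf
  have := hP.1
  have e : SS {l : List (Step D) | Block l} (fun l => (f l : ℝ≥0∞) * wb true p lam l) =
      ∑' l, (f l : ℝ≥0∞) * {l : List (Step D) | Block l}.indicator (wb true p lam) l := by
    rw [SS]
    exact tsum_congr fun l => Set.indicator_mul_right _ (fun l => (f l : ℝ≥0∞)) _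
  rw [e] at hf ⊢
  rw [ae_all_iff]
  intro u
  by_cases hu : Cand u u.length
  · have key := h2 (List (Step D)) (Om D) P
      ({l : List (Step D) | Block l}.indicator (wb true p lam)) f (P (HevM.HU u))
      (fun N b => {z | (∀ i, Block (b i)) ∧ z ∈ HevM.HU (u ++ (List.ofFn b).flatten)})
      (measure_ne_top _ _) hS hf (by
        intro N b
        by_cases hb : ∀ i, Block (b i)
        · obtain ⟨c1, c2⟩ := HevM.flatten_wb fa h0 h1' lam (List.ofFn b)
            (List.forall_mem_ofFn_iff.2 hb) u hu
          have e1 : {z : Om D | (∀ i, Block (b i)) ∧ z ∈ HevM.HU (u ++ (List.ofFn b).flatten)} =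
              HevM.HU (u ++ (List.ofFn b).flatten) := by
            ext z; simp [hb]
          rw [e1, h1 D p lam h0 h1' hl P hP _ c1, h1 D p lam h0 h1' hl P hP _ hu, c2,
            List.map_ofFn, List.prod_ofFn]
          have e2 : ∏ i, {l : List (Step D) | Block l}.indicator (wb true p lam) (b i) =
              ∏ i, (wb true p lam ∘ b) i :=
            Finset.prod_congr rfl fun i _ =>
              Set.indicator_of_mem (s := {l : List (Step D) | Block l}) (hb i) _
          rw [e2]
          apply le_of_eq
          ring
        · have e1 : {z : Om D | (∀ i, Block (b i)) ∧ z ∈ HevM.HU (u ++ (List.ofFn b).flatten)} =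
              ∅ := by
            ext z; simp [hb]
          rw [e1, measure_empty]
          exact zero_le)
    filter_upwards [key] with z hz β _ hq
    refine hz β fun N => ⟨fun i => hq.1 i, ?_⟩
    rw [ofFn_range]
    exact hq.2 N
  · exact ae_of_all _ fun z β h => absurd h hu

end Pool.Agent.MP_8c549f_pr.EX
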