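import Pool.Agent.MP_8c549f_pr.EX.Spec

/-!
PROJECT EX, row CC: if every candidate fails, there are infinitely many records without a cut.
-/

set_option autoImplicit false

namespace Pool.Agent.MP_8c549f_pr.EX

namespace CcA

def cd (f : ℕ → ℤ) (t : ℕ) : Prop :=
  1 ≤ t ∧ f t = f (t - 1) + 1 ∧ ∀ i < t - 1, f i < f (t - 1)

def ct (f : ℕ → ℤ) (T t : ℕ) : Prop := cd f t ∧ t ≤ T ∧ ∀ i, t ≤ i → i ≤ T → f t ≤ f i

theorem core (f : ℕ → ℤ) (hs : ∀ i, f (i + 1) ≤ f i + 1) (h0 : f 0 = 0) (hle : ∀ i, f i ≤ i)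
    (hU : ∀ m : ℕ, ∃ n, (m : ℤ) < f n) (hc : ∀ t, cd f t → ∃ n, t ≤ n ∧ f n < f t) (T0 : ℕ) :
    ∃ T, T0 < T ∧ (∀ i < T, f i < f T) ∧ 1 ≤ f T ∧ ∀ t, ¬ ct f T t := by
  classical
  obtain ⟨n, hn⟩ := hU T0
  obtain ⟨T, -, h1, h2⟩ := exists_first_hit f hs (c := T0 + 1) (n := n) (by omega) (by omega)
  have h3 : T0 < T := by have := hle T; omega
  by_cases ex : ∃ t, ct f T t
  swap
  · exact ⟨T, h3, fun i hi => h1 ▸ h2 i hi, by omega, fun t k => ex ⟨t, k⟩⟩
  obtain ⟨a1, a2, a3⟩ := Nat.find_spec ex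
  have a4 : ∀ t, ct f T t → Nat.find ex ≤ t := fun t k => Nat.find_min' ex k
  generalize Nat.find ex = t0 at a1 a2 a3 a4
  obtain ⟨i, b1, b2⟩ := hc t0 a1
  have b3 : T < i := lt_of_not_ge fun k => absurd (a3 i b1 k) (not_le.2 b2)
  obtain ⟨j, c1, c2⟩ := Finset.exists_max_image (Finset.range (i + 1)) f ⟨0, by simp⟩
  simp only [Finset.mem_range, Nat.lt_succ_iff] at c1 c2
  have c3 := c2 0 (Nat.zero_le _)
  obtain ⟨n', hn'⟩ := hU (f j).toNat
  obtain ⟨T', -, d1, d2⟩ := exists_first_hit f hs (c := f j + 1) (n := n') (by omega) (by omega)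
  have d3 : i < T' := lt_of_not_ge fun k => by have := c2 T' k; omega
  refine ⟨T', by omega, fun k hk => d1 ▸ d2 k hk, by omega, fun t ⟨⟨e1, e2, e3⟩, e4, e5⟩ => ?_⟩
  have e6 := a3 T a2 le_rfl
  by_cases k1 : t ≤ T
  · have := a4 t ⟨⟨e1, e2, e3⟩, k1, fun k x y => e5 k x (by omega)⟩
    have := a3 t this k1
    have := e5 i (by omega) d3.le
    omega
  by_cases k2 : t ≤ i
  · have := e5 i k2 d3.le
    by_cases k3 : T = t - 1
    · rw [← k3] at e2; omega
    · have := e3 T (by omega); omega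
  by_cases k3 : i = t - 1
  · have := e3 t0 (by omega)
    rw [← k3] at this
    omega
  · have := e3 j (by omega)
    have := d2 (t - 1) (by omega)
    omega

variable {D : ℕ}

theorem cand_of (s : ℕ → Step D) {t : ℕ} (h : cd (fun n => lev (pre s n)) t) :
    Cand (pre s t) t := by
  refine ⟨h.1, by simp, ?_, fun i hi => ?_⟩
  · rw [H_pre s le_rfl, H_pre s (Nat.sub_le _ _)]; exact h.2.1
  · rw [H_pre s (by omega), H_pre s (Nat.sub_le _ _)]; exact h.2.2 i hi

theorem of_cut (s : ℕ → Step D) {T t : ℕ} (h : Cut (pre s T) t) :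
    ct (fun n => lev (pre s n)) T t := by
  obtain ⟨⟨h1, h2, h3, h4⟩, h5⟩ := h
  rw [pre_length] at h2 h5
  refine ⟨⟨h1, ?_, fun i hi => ?_⟩, h2, fun i a b => ?_⟩
  · rwa [H_pre s h2, H_pre s (by omega)] at h3
  · have := h4 i hi
    rwa [H_pre s (by omega), H_pre s (by omega)] at this
  · have := h5 i a b
    rwa [H_pre s h2, H_pre s b] at this

end CcA

theorem cc : CCStmt := by
  intro D s hU hc
  refine Set.infinite_of_forall_exists_gt fun T0 => ?_
  obtain ⟨T, h1, h2, h3, h4⟩ := CcA.core (fun n => lev (pre s n))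
    (fun i => by
      have := (H_step (pre s (i + 1)) i).2
      rwa [H_pre s le_rfl, H_pre s (Nat.le_succ _)] at this)
    (by simp [pre])
    (fun i => by have := lev_le_length (pre s i); rwa [pre_length] at this) hU
    (fun t k => hc t (CcA.cand_of s k)) T0
  refine ⟨T, ⟨fun i hi => ?_, h3, fun t k => h4 t (CcA.of_cut s k)⟩, h1⟩
  rw [pre_length] at hi
  rw [H_pre s hi.le]
  exact h2 i hi

end Pool.Agent.MP_8c549f_pr.EX
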