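import Pool.Agent.MP_8c549f_pr.EX.Spec

/-! PROJECT EX: finitely many columns and finitely many visits. -/

set_option autoImplicit false

namespace Pool.Agent.MP_8c549f_pr.EX

open Classical in
theorem col : COLStmt := by
  intro D s m k hm hF hV
  have hH : ∀ n, ∀ i ≤ (pre s n).length, H (pre s n) i ≤ m := fun n i hi => by
    rw [H_pre s (by simpa using hi)]
    exact hm i
  refine (hF.biUnion fun t _ => (Set.finite_Icc (-(k : ℤ)) m).biUnion fun h _ =>
    hV (Function.update (pos (pre s t)) 0 h)).subset fun n hn => ?_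
  have ex : ∃ t, -(k : ℤ) ≤ lev (pre s t) ∧
      ∀ j : Fin D, pos (pre s t) j.succ = pos (pre s n) j.succ := ⟨n, hn, fun _ => rfl⟩
  have sp := Nat.find_spec ex
  simp only [Set.mem_iUnion]
  refine ⟨Nat.find ex, ⟨hH _, sp.1, fun i hi h1 => ?_⟩, lev (pre s n), ⟨hn, hm n⟩, hH n, ?_⟩
  · rw [pre_length] at hi
    rw [H_pre s hi.le] at h1
    by_contra hc
    refine Nat.find_min ex hi ⟨h1, fun j => ?_⟩
    rw [← sp.2 j, ← loc_pre s hi.le]
    by_contra h2
    exact hc ⟨j, h2⟩
  · funext j
    refine Fin.cases ?_ (fun j => ?_) j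
    · rw [Function.update_self]
      rfl
    · rw [Function.update_of_ne (Fin.succ_ne_zero j), sp.2 j]

end Pool.Agent.MP_8c549f_pr.EX
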