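import Pool.Agent.MP_8c549f_pr.EX.Spec

/-!
PROJECT EX: only finitely many records have no cut.
-/

set_option autoImplicit false

namespace Pool.Agent.MP_8c549f_pr.EX

open MeasureTheory Filter Topology Real
open scoped ENNReal NNReal

namespace CqA

variable {D : ℕ}

theorem fwd_ne {p : ℝ} (h0 : 0 < p) (h1 : p ≤ 1) (lam : ℝ) : wb true p lam [fwd D] ≠ 0 := by
  intro h
  have h2 := fl D p lam h0.le h1 true [] [fwd D] fun i hi => by simp at hi
  rw [List.nil_append, h, wb_nil true h0.le h1, one_mul, Wf_eq, nonpos_iff_eq_zero,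
    mul_eq_zero, ENNReal.ofReal_eq_zero, ENNReal.ofReal_eq_zero] at h2
  have h3 := Zf_pos D lam
  rcases h2 with h2 | h2
  · exact absurd h2 (not_le.2 (by positivity))
  · exact absurd h2 (not_le.2 (by positivity))

theorem cut_app {v t r : List (Step D)} (hv : Cand v v.length) (hl : Stay (t ++ r)) :
    Cut (v ++ t) v.length := by
  obtain ⟨c1, -, c3, c4⟩ := hv
  refine ⟨⟨c1, by simp, ?_, fun i hi => ?_⟩, fun i h1 h2 => ?_⟩
  · rwa [H_append_left _ le_rfl, H_append_left _ (Nat.sub_le _ _)]
  · rw [H_append_left _ (by omega), H_append_left _ (Nat.sub_le _ _)]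
    exact c4 i hi
  · obtain ⟨j, rfl⟩ := Nat.exists_eq_add_of_le h1
    have hj : j ≤ t.length := by
      rw [List.length_append] at h2
      omega
    have h3 := hl j (by rw [List.length_append]; omega)
    rw [H_append_left _ hj] at h3
    rw [H_append_left _ le_rfl, H_length, H_append_right]
    omega

end CqA

theorem cq (h : TRIStmt) : CQStmt := by
  intro D p lam h0 h1 hq
  refine ⟨wb true p lam [fwd D] * qq D p lam, mul_ne_zero (CqA.fwd_ne h0 h1 lam) hq,
    h D (wb false p lam) NoC _ (wb_le_one false h0.le h1 lam _)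
      (fun T hT u => cont_wb false p lam hT u) fun u hu n => ?_⟩
  obtain ⟨u1, u2, -⟩ := hu
  have hne : u ≠ [] := by
    rintro rfl
    simp at u2
  have hc : Cand (u ++ [fwd D]) (u ++ [fwd D]).length := by
    rw [List.length_append, List.length_singleton]
    exact (PieceA.cand_new u (fwd D)).2 ⟨u1, rfl⟩
  refine ⟨(fun l => fwd D :: l) '' {l | l.length = n ∧ Stay l}, ?_, ?_, ?_⟩
  · rintro _ ⟨a, ha, rfl⟩ _ ⟨b, hb, rfl⟩ hab
    exact hab.eq_of_length (by simp [ha.1, hb.1])
  · rw [SS_image (List.cons_injective (a := fwd D)),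
      SS_congr (g := fun l => wb false p lam u * wb true p lam [fwd D] * wb true p lam l)
        fun l hl => ?_, SS_mul_left, mul_comm _ (wb false p lam u), ← mul_assoc]
    · exact mul_le_mul_right (iInf_le _ n) _
    · show wb false p lam (u ++ fwd D :: l) = _
      rw [List.append_cons, fa D p lam h0.le h1 false _ l hc fun i hi => hl.2 i hi.le,
        fb D p lam h0.le h1 false u _ u1 (Or.inl hne)]
  · rintro _ ⟨l, hl, rfl⟩ t t0 t1 t2
    refine ⟨fun c => ?_, fun c => ?_⟩
    · obtain ⟨s, t', rfl⟩ := List.exists_cons_of_ne_nil t0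
      obtain ⟨rfl, r, rfl⟩ := List.cons_prefix_cons.1 c
      refine t2.2.2 (u ++ [fwd D]).length ?_
      rw [List.append_cons]
      exact CqA.cut_app hc hl.2
    · have := c.length_le
      simp only [List.length_cons, hl.1] at this
      omega

end Pool.Agent.MP_8c549f_pr.EX
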