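import Pool.Agent.MP_8c549f_pr.EX.Spec

/-! The level of the walk between two block ends. -/

set_option autoImplicit false

namespace Pool.Agent.MP_8c549f_pr.EX

namespace DetA

variable {D : ℕ} {u : List (Step D)} {β : ℕ → List (Step D)}

theorem len (N : ℕ) : (cat u β N).length = u.length + ∑ i ∈ Finset.range N, (β i).length := by
  induction N with
  | zero => simp [cat_zero]
  | succ N ih => rw [cat_succ, List.length_append, ih, Finset.sum_range_succ, add_assoc]

theorem level (h : ∀ i, Block (β i)) (N : ℕ) :
    lev (cat u β N) = lev u + (∑ i ∈ Finset.range N, (lev (β i)).toNat : ℕ) := by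
  induction N with
  | zero => simp [cat_zero]
  | succ N ih =>
    have := (h N).lev_pos
    rw [cat_succ, lev_append, ih, Finset.sum_range_succ, Nat.cast_add]
    omega

end DetA

open DetA in
theorem det : DETStmt := by
  intro D u z β h n hn
  have hex : ∃ k, n < (cat u β (k + 1)).length := ⟨n, by
    have := Finset.card_nsmul_le_sum (Finset.range (n + 1)) _ 1 fun i _ => (h.1 i).2.1.1
    rw [Finset.card_range, smul_eq_mul] at this
    rw [len]
    omega⟩
  have h1 := Nat.find_spec hex
  have h2 : (cat u β (Nat.find hex)).length ≤ n := by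
    rcases Nat.eq_zero_or_pos (Nat.find hex) with e | e
    · rwa [e, cat_zero]
    · have := Nat.find_min hex (Nat.sub_lt e one_pos)
      rwa [Nat.sub_one_add_one e.ne', not_lt] at this
  refine ⟨Nat.find hex, len _ ▸ h2, len _ ▸ h1, level h.1 _ ▸ (h.2 _).2 n h2, ?_⟩
  generalize Nat.find hex = k at h1 h2
  have h3 := (h.2 (k + 1)).1
  rw [← level h.1, cat_succ, lev_append]
  rw [cat_succ] at h1 h3
  rw [List.length_append] at h1
  obtain ⟨i, rfl⟩ := Nat.exists_eq_add_of_le h2
  rw [HevM.level_append h3 (by omega)]
  have := PieceB.H_lt (h.1 k) (i := i) (by omega)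
  omega

end Pool.Agent.MP_8c549f_pr.EX
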