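import Pool.Agent.MP_8c549f_pr.EX.Spec

/-!
PROJECT EX: the exact probability of never going lower.
-/

set_option autoImplicit false

namespace Pool.Agent.MP_8c549f_pr.EX

open MeasureTheory Filter Topology Real
open scoped ENNReal NNReal

namespace ExaA

variable {D : ℕ}

/-- quenched weight of `u` followed by `n` steps above the level of its end -/
noncomputable def F (lam : ℝ) (u : List (Step D)) (n : ℕ) (ω : Cfg D) : ℝ≥0∞ :=
  SS {l : List (Step D) | l.length = n ∧ Stay l} fun l => W lam ω 0 (u ++ l)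

theorem intA (lam : ℝ) (u : List (Step D)) (n : ℕ) (μ : Measure (Cfg D)) :
    ∫⁻ ω, F lam u n ω ∂μ = SS {l : List (Step D) | l.length = n ∧ Stay l}
      fun l => ∫⁻ ω, W lam ω 0 (u ++ l) ∂μ :=
  lintegral_SS _ _ fun l => measurable_W lam 0 (u ++ l)

theorem intF {p : ℝ} (h0 : 0 ≤ p) (h1 : p ≤ 1) (lam : ℝ) {u : List (Step D)}
    (hu : Cand u u.length) (n : ℕ) : ∫⁻ ω, F lam u n ω ∂perc D p =
      wb false p lam u * SS {l : List (Step D) | l.length = n ∧ Stay l} (wb true p lam) := by
  rw [intA, ← SS_mul_left]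
  exact le_antisymm
    (SS_mono subset_rfl fun l hl => (fa D p lam h0 h1 false u l hu fun i hi => hl.2 i hi.le).le)
    (SS_mono subset_rfl fun l hl => (fa D p lam h0 h1 false u l hu fun i hi => hl.2 i hi.le).ge)

theorem out {p lam : ℝ} (h0 : 0 ≤ p) (h1 : p ≤ 1) (hlam : 0 ≤ lam) {u : List (Step D)}
    (hu : Cand u u.length) :
    Tendsto (fun n => ∫⁻ ω in (InfCl D)ᶜ, F lam u n ω ∂perc D p) atTop (𝓝 0) := by
  have := perc_prob D h0 h1
  have mF : ∀ n, Measurable (F lam u n) := fun n =>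
    measurable_SS fun l => measurable_W lam 0 (u ++ l)
  have bF : ∀ n ω, F lam u n ω ≤ 1 := fun n ω =>
    (cont_q lam ω ((antich_length n).mono fun l hl => hl.1) 0 u).trans (W_le_one lam ω u 0)
  have := tendsto_lintegral_of_dominated_convergence (μ := (perc D p).restrict (InfCl D)ᶜ)
    (F := F lam u) (f := fun _ => 0) (fun _ => 1) mF (fun n => Eventually.of_forall (bF n))
    (by simp) ((ae_restrict_mem Law.meas_inf.compl).mono fun ω hω => HevM.vanish van esc hlam hω hu)
  simpa using this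

theorem low {p : ℝ} (h0 : 0 ≤ p) (h1 : p ≤ 1) (lam : ℝ) {u : List (Step D)}
    (hu : Cand u u.length) (n : ℕ) : wb false p lam u * qq D p lam ≤
      ∫⁻ ω in InfCl D, F lam u n ω ∂perc D p + ∫⁻ ω in (InfCl D)ᶜ, F lam u n ω ∂perc D p := by
  rw [lintegral_add_compl _ Law.meas_inf, intF h0 h1 lam hu]
  exact mul_le_mul_right (iInf_le _ n) _

theorem pGU {p lam : ℝ} (h0 : 0 ≤ p) (h1 : p ≤ 1) {P : Measure (Om D)}
    (hP : IsAnnealed D p lam P) (u : List (Step D)) (n : ℕ) : P (HevM.GU u n) =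
      (perc D p (InfCl D))⁻¹ * ∫⁻ ω in InfCl D, F lam u n ω ∂perc D p := by
  obtain ⟨-, -, hC, hA⟩ := law D p lam h0 h1 P hP
  have e : P (⋃ l : {l : List (Step D) | l.length = n ∧ Stay l}, Cyl (u ++ l)) =
      (perc D p (InfCl D))⁻¹ * ∫⁻ ω in InfCl D, F lam u n ω ∂perc D p := by
    rw [intA, ← SS_mul_left, SS_eq_tsum_subtype, measure_iUnion (fun l l' hne => ?_)
      fun l => (hC _).1]
    · exact tsum_congr fun l => (hC _).2
    · refine Set.disjoint_left.2 fun z hz hz' => hne (Subtype.ext ?_)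
      have hl : (u ++ l.1).length = (u ++ l'.1).length := by
        rw [List.length_append, List.length_append, l.2.1, l'.2.1]
      exact List.append_cancel_left ((HevM.prefix_of_Cyl hz hz' hl.le).eq_of_length hl)
  rw [← e]
  refine le_antisymm (measure_mono_ae (hA.mono fun z hz hg => ?_))
    (measure_mono (Set.iUnion_subset fun l => ?_))
  · obtain ⟨v, v1, v2⟩ := hz (u.length + n)
    obtain ⟨l, rfl⟩ := HevM.prefix_of_Cyl hg.1 v2 (by omega)
    have hl : l.length = n := by
      rw [List.length_append] at v1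
      omega
    refine Set.mem_iUnion.2 ⟨⟨l, hl, fun i hi => ?_⟩, v2⟩
    have := hg.2 (u.length + i) (by omega) (by omega)
    rw [HevM.level_append v2 hi] at this
    omega
  · have := HevM.Cyl_sub_GU (u := u) l.2.2
    rwa [l.2.1] at this

end ExaA

theorem inf : INFStmt := by
  intro D p lam h0 h1 hlam hq hz
  have hw : wb false p lam [fwd D] ≠ 0 := fun h => by
    have h2 := fl D p lam h0.le h1 false [] [fwd D] fun i hi => by simp at hi
    rw [List.nil_append, h, wb_nil false h0.le h1, one_mul, Wf_eq, nonpos_iff_eq_zero,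
      mul_eq_zero, ENNReal.ofReal_eq_zero, ENNReal.ofReal_eq_zero] at h2
    have h3 := Zf_pos D lam
    rcases h2 with h2 | h2
    · exact absurd h2 (not_le.2 (by positivity))
    · exact absurd h2 (not_le.2 (by positivity))
  refine mul_ne_zero hw hq (nonpos_iff_eq_zero.1
    (ge_of_tendsto' (ExaA.out h0.le h1 hlam (HevM.cand_fwd (D := D))) fun n => ?_))
  have := ExaA.low h0.le h1 lam (HevM.cand_fwd (D := D)) n
  rwa [setLIntegral_measure_zero _ _ hz, zero_add] at this

theorem exa : EXAStmt := by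
  intro D p lam h0 h1 hlam P hP u hu
  obtain ⟨-, hz, hC, -⟩ := law D p lam h0 h1 P hP
  have := hP.1
  have hc : (perc D p (InfCl D))⁻¹ ≠ ∞ := ENNReal.inv_ne_top.2 hz
  refine le_antisymm ?_ ?_
  · have hw : (perc D p (InfCl D))⁻¹ * wb false p lam u ≠ ∞ :=
      ENNReal.mul_ne_top hc (ne_top_of_le_ne_top ENNReal.one_ne_top (wb_le_one false h0 h1 lam u))
    rw [← mul_assoc, qq, ENNReal.mul_iInf fun h => absurd h hw]
    refine le_iInf fun n => ?_
    rw [mul_assoc, ← ExaA.intF h0 h1 lam hu n]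
    refine (measure_mono ?_).trans ((ExaA.pGU h0 h1 hP u n).le.trans
      (mul_le_mul_right (setLIntegral_le_lintegral _ _) _))
    rw [← HevM.iInter_GU]
    exact Set.iInter_subset _ n
  · have t2 : Tendsto (fun n => P (HevM.GU u n)) atTop (𝓝 (P (HevM.HU u))) := by
      rw [← HevM.iInter_GU]
      exact tendsto_measure_iInter_atTop (fun n => (HevM.meas_GU (hC u).1 n).nullMeasurableSet)
        (HevM.GU_anti u) ⟨0, measure_ne_top _ _⟩
    have t3 := t2.add (ENNReal.Tendsto.const_mul (ExaA.out h0 h1 hlam hu) (Or.inr hc))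
    rw [mul_zero, add_zero] at t3
    refine ge_of_tendsto' t3 fun n => ?_
    rw [ExaA.pGU h0 h1 hP u n, ← mul_add]
    exact mul_le_mul_right (ExaA.low h0 h1 lam hu n) _

end Pool.Agent.MP_8c549f_pr.EX
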