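import Pool.Agent.MP_8c549f_pr.EX.Spec

/-! PROJECT EX: trials at fresh columns. -/

set_option autoImplicit false

namespace Pool.Agent.MP_8c549f_pr.EX

open scoped ENNReal

namespace FrA

variable {D : ℕ}

theorem loc_rep {n i : ℕ} (h : i ≤ n) :
    loc (List.replicate n (fwd D)) i = Pi.single 0 (i : ℤ) := by
  rw [loc, List.take_replicate, LatM.pos_replicate, min_eq_left h]

end FrA

theorem fr (h : TRIStmt) : FRStmt := by
  intro D p lam h0 h1 m k
  refine ⟨ENNReal.ofReal (p ^ (List.replicate (m + k + 1) (fwd D)).length) *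
    Wf lam (List.replicate (m + k + 1) (fwd D)), mul_ne_zero ?_ ?_,
    h D _ _ _ (wb_nil false h0.le h1 lam).le (fun T hT u => cont_wb false p lam hT u)
      fun u hu n => ⟨{List.replicate (m + k + 1) (fwd D)}, fun a ha b hb _ => ha.trans hb.symm,
        ?_, ?_⟩⟩
  · exact (ENNReal.ofReal_pos.2 (by positivity)).ne'
  · have := Zf_pos D lam
    rw [Wf_eq]
    exact (ENNReal.ofReal_pos.2 (by positivity)).ne'
  · rw [SS_singleton, mul_comm]
    refine fl D p lam h0.le h1 false u _ fun i hi j hj e => ?_
    rw [List.length_replicate] at hj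
    rw [FrA.loc_rep hj] at e
    obtain ⟨a, ha⟩ := hu.2.2 i hi (by
      have h2 : -(k : ℤ) ≤ pos u 0 := hu.2.1
      rw [H, e, Pi.add_apply, Pi.single_eq_same]
      omega)
    exact ha (by rw [e, Pi.add_apply, Pi.single_eq_of_ne (Fin.succ_ne_zero a), add_zero])
  · rintro _ rfl t ht - hq
    refine ⟨fun k1 => ?_, fun ⟨r, k1⟩ => ?_⟩
    · obtain ⟨a, ha⟩ := hq.2.2 u.length (by
        have := List.length_pos_iff.2 ht
        rw [List.length_append]
        omega) (by rw [H, loc_append_left _ le_rfl, loc_length]; exact hu.2.1)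
      refine ha ?_
      rw [loc_append_left _ le_rfl, loc_length, pos_append, List.prefix_iff_eq_take.1 k1,
        pos_take, FrA.loc_rep (by simpa using k1.length_le), Pi.add_apply,
        Pi.single_eq_of_ne (Fin.succ_ne_zero a), add_zero]
    · subst k1
      have h2 := hq.1 (u.length + (m + k + 1)) (by simp)
      have h3 : -(k : ℤ) ≤ pos u 0 := hu.2.1
      rw [H, loc_append_right, loc_append_left _ (by simp), FrA.loc_rep le_rfl, Pi.add_apply,
        Pi.single_eq_same] at h2
      omega

end Pool.Agent.MP_8c549f_pr.EX
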