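import Pool.Agent.MP_8c549f_pr.EX.Spec

/-!
PROJECT EX: the annealed law exists.
-/

set_option autoImplicit false

namespace Pool.Agent.MP_8c549f_pr.EX

open MeasureTheory Filter Topology Real ProbabilityTheory
open scoped ENNReal NNReal

namespace LawxA

variable {D : ℕ}

theorem meas_dep {α β γ : Type} [MeasurableSpace α] [MeasurableSpace β] [MeasurableSpace γ]
    [Countable β] [MeasurableSingletonClass β] {f : α → β} {g : α → β → γ} (hf : Measurable f)
    (hg : ∀ b, Measurable fun a => g a b) : Measurable fun a => g a (f a) :=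
  (measurable_from_prod_countable_left (f := fun p : α × β => g p.1 p.2) hg).comp
    (measurable_id.prodMk hf)

/-- the open directions at `x` -/
def key (ω : Cfg D) (x : V D) : Step D → Bool := fun s => ω (edge x s)

noncomputable def pw (lam : ℝ) (K : Step D → Bool) (s : Step D) : ℝ :=
  if K s = true then wt lam s / ∑ t : Step D, (if K t = true then wt lam t else 0) else 0

open Classical in
/-- the law of a step -/
noncomputable def mu (lam : ℝ) (K : Step D → Bool) : Measure (Step D) :=
  if ∃ s, K s = true then ∑ s : Step D, ENNReal.ofReal (pw lam K s) • Measure.dirac s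
  else Measure.dirac (fwd D)

theorem z_nonneg (lam : ℝ) (K : Step D → Bool) (t : Step D) :
    0 ≤ if K t = true then wt lam t else 0 := by
  split_ifs
  exacts [(wt_pos lam t).le, le_rfl]

theorem mu_prob (lam : ℝ) (K : Step D → Bool) : IsProbabilityMeasure (mu lam K) := by
  unfold mu
  split_ifs with h
  · obtain ⟨s, hs⟩ := h
    have h1 : 0 < ∑ t : Step D, (if K t = true then wt lam t else 0) :=
      Finset.sum_pos' (fun t _ => z_nonneg lam K t)
        ⟨s, Finset.mem_univ s, by rw [if_pos hs]; exact wt_pos lam s⟩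
    have h2 : ∀ t, pw lam K t = (if K t = true then wt lam t else 0) /
        ∑ t : Step D, (if K t = true then wt lam t else 0) := fun t => by
      unfold pw
      split_ifs
      · rfl
      · exact (zero_div _).symm
    refine ⟨?_⟩
    simp only [Measure.coe_finsetSum, Finset.sum_apply, Measure.smul_apply, measure_univ,
      smul_eq_mul, mul_one]
    rw [← ENNReal.ofReal_sum_of_nonneg fun t _ => by
      rw [h2]; exact div_nonneg (z_nonneg lam K t) h1.le]
    simp only [h2]
    rw [← Finset.sum_div, div_self h1.ne', ENNReal.ofReal_one]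
  · infer_instance

theorem mu_step (lam : ℝ) {ω : Cfg D} {x : V D} (h : ∃ s, ω (edge x s) = true) (y : V D) :
    mu lam (key ω x) {s | x + vec s = y} = ENNReal.ofReal (trans lam ω x y) := by
  by_cases k : Adj x y
  · obtain ⟨s, rfl⟩ := k
    have h1 : {t | x + vec t = x + vec s} = {s} :=
      Set.ext fun t => ⟨fun e => vec_injective (add_left_cancel e), fun e => by
        rw [Set.mem_singleton_iff.1 e]; rfl⟩
    rw [h1, Law.trans_step, mu, if_pos (show ∃ s, key ω x s = true from h)]
    simp only [Measure.coe_finsetSum, Finset.sum_apply, Measure.smul_apply, smul_eq_mul]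
    rw [Finset.sum_eq_single s (fun t _ ht => by simp [ht]) (by simp)]
    simp only [Measure.dirac_apply_of_mem (Set.mem_singleton s), mul_one]
    rfl
  · have h1 : {t | x + vec t = y} = ∅ :=
      Set.eq_empty_of_forall_notMem fun t e => k ⟨t, Eq.symm e⟩
    rw [h1, measure_empty, trans, Law.cond_zero lam ω k, zero_div, ENNReal.ofReal_zero]

theorem trans_nonneg (lam : ℝ) (ω : Cfg D) (x y : V D) : 0 ≤ trans lam ω x y := by
  have h : ∀ z, 0 ≤ cond lam ω x z := fun z => by
    unfold cond
    split_ifs
    exacts [(exp_pos _).le, le_rfl]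
  exact div_nonneg (h y) (tsum_nonneg h)

theorem prod_mu (lam : ℝ) {ω : Cfg D} (hω : ω ∈ InfCl D) {γ : ℕ → V D} (h0 : γ 0 = 0) (n : ℕ) :
    ∏ i ∈ Finset.range n, mu lam (key ω (γ i)) {s | γ i + vec s = γ (i + 1)} =
      ENNReal.ofReal (∏ i ∈ Finset.range n, trans lam ω (γ i) (γ (i + 1))) ∧
    (∏ i ∈ Finset.range n, trans lam ω (γ i) (γ (i + 1)) ≠ 0 → ∃ s, ω (edge (γ n) s) = true) := by
  induction n with
  | zero =>
    refine ⟨by simp, fun _ => ?_⟩
    obtain ⟨y, h1, h2⟩ := Set.Infinite.exists_notMem_finset hω {0}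
    rcases Relation.ReflTransGen.cases_head h1 with e | ⟨z, e, -⟩
    · exact absurd (Finset.mem_singleton.2 e.symm) h2
    · obtain ⟨s, -, hs⟩ := opn_iff.1 e
      exact ⟨s, h0 ▸ hs⟩
  | succ n ih =>
    rw [Finset.prod_range_succ, Finset.prod_range_succ, ih.1]
    refine ⟨?_, fun h => ?_⟩
    · by_cases k : ∏ i ∈ Finset.range n, trans lam ω (γ i) (γ (i + 1)) = 0
      · rw [k, zero_mul, ENNReal.ofReal_zero, zero_mul]
      · rw [mu_step lam (ih.2 k),
          ENNReal.ofReal_mul (Finset.prod_nonneg fun i _ => trans_nonneg lam ω _ _)]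
    · have h1 : Opn ω (γ n) (γ (n + 1)) := by
        by_contra k
        exact right_ne_zero_of_mul h (by rw [trans, cond, if_neg k, zero_div])
      obtain ⟨s, e, hs⟩ := opn_iff.1 h1
      exact ⟨rev s, by rw [e, edge_rev]; exact hs⟩

/-- the walk made from independent choices -/
def wk (ω : Cfg D) (U : ℕ × (Step D → Bool) → Step D) : ℕ → V D
  | 0 => 0
  | n + 1 => wk ω U n + vec (U (n, key ω (wk ω U n)))

theorem meas_wk (n : ℕ) :
    Measurable fun q : Cfg D × (ℕ × (Step D → Bool) → Step D) => wk q.1 q.2 n := by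
  induction n with
  | zero => exact measurable_const
  | succ n ih =>
    refine meas_dep (g := fun (q : Cfg D × (ℕ × (Step D → Bool) → Step D)) x =>
      x + vec (q.2 (n, key q.1 x))) ih fun x => ?_
    refine (measurable_of_countable fun s : Step D => x + vec s).comp ?_
    exact meas_dep (g := fun (q : Cfg D × (ℕ × (Step D → Bool) → Step D)) K => q.2 (n, K))
      (measurable_pi_lambda _ fun s => (measurable_pi_apply (edge x s)).comp measurable_fst)
      fun K => (measurable_pi_apply (n, K)).comp measurable_snd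

theorem wk_iff (ω : Cfg D) (U : ℕ × (Step D → Bool) → Step D) (γ : ℕ → V D) (n : ℕ) :
    (∀ i ≤ n, wk ω U i = γ i) ↔
      γ 0 = 0 ∧ ∀ i < n, γ i + vec (U (i, key ω (γ i))) = γ (i + 1) := by
  constructor
  · refine fun h => ⟨(h 0 n.zero_le).symm, fun i hi => ?_⟩
    rw [← h i hi.le, ← h (i + 1) hi]
    rfl
  · rintro ⟨h0, h⟩ i hi
    induction i with
    | zero => exact h0.symm
    | succ i ih => rw [wk, ih (Nat.le_of_succ_le hi), h i hi]

theorem cylx (lam : ℝ) {ω : Cfg D} (hω : ω ∈ InfCl D) (γ : ℕ → V D) (n : ℕ) :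
    Measure.infinitePi (fun q : ℕ × (Step D → Bool) => mu lam q.2) {U | ∀ i ≤ n, wk ω U i = γ i} =
      ENNReal.ofReal (if γ 0 = 0 then ∏ i ∈ Finset.range n, trans lam ω (γ i) (γ (i + 1))
        else 0) := by
  classical
  have := fun K : Step D → Bool => mu_prob lam K
  split_ifs with h0
  · have h1 : {U | ∀ i ≤ n, wk ω U i = γ i} =
        Set.pi (((Finset.range n).image fun i => (i, key ω (γ i)) : Finset _) : Set _)
          fun q : ℕ × (Step D → Bool) => {s | γ q.1 + vec s = γ (q.1 + 1)} := by
      ext U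
      simp [wk_iff, h0]
    rw [h1, Measure.infinitePi_pi _ fun _ _ => MeasurableSet.of_discrete,
      Finset.prod_image fun i _ j _ e => congrArg Prod.fst e]
    exact (prod_mu lam hω h0 n).1
  · have h1 : {U | ∀ i ≤ n, wk ω U i = γ i} = ∅ :=
      Set.eq_empty_of_forall_notMem fun U e => h0 ((wk_iff ω U γ n).1 e).1
    rw [h1, measure_empty, ENNReal.ofReal_zero]

end LawxA

open LawxA in
theorem lawx : LAWXStmt := by
  intro D p lam h0 h1 hz
  have := perc_prob D h0 h1
  have := fun K : Step D → Bool => mu_prob lam K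
  have : IsProbabilityMeasure ((perc D p)[|InfCl D]) := cond_isProbabilityMeasure hz
  have hF : Measurable fun q : Cfg D × (ℕ × (Step D → Bool) → Step D) => (q.1, wk q.1 q.2) :=
    measurable_fst.prodMk (measurable_pi_lambda _ meas_wk)
  refine ⟨Measure.map (fun q => (q.1, wk q.1 q.2)) (((perc D p)[|InfCl D]).prod
    (Measure.infinitePi fun q : ℕ × (Step D → Bool) => mu lam q.2)),
    Measure.isProbabilityMeasure_map hF.aemeasurable, fun A hA n γ => ?_⟩
  have hS : MeasurableSet {z : Om D | z.1 ∈ A ∧ ∀ i ≤ n, z.2 i = γ i} := by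
    refine (measurable_fst hA).inter ?_
    have e : {z : Om D | ∀ i ≤ n, z.2 i = γ i} = ⋂ i, ⋂ _ : i ≤ n, {z : Om D | z.2 i = γ i} := by
      ext z
      simp
    change MeasurableSet {z : Om D | ∀ i ≤ n, z.2 i = γ i}
    rw [e]
    exact MeasurableSet.iInter fun i => MeasurableSet.iInter fun _ =>
      ((measurable_pi_apply i).comp measurable_snd : Measurable fun z : Om D => z.2 i)
        (measurableSet_singleton (γ i))
  rw [Measure.map_apply hF hS, Measure.prod_apply (hF hS), ← lintegral_indicator hA]
  refine lintegral_congr_ae ?_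
  filter_upwards [ae_cond_mem (μ := perc D p) (Law.meas_inf (D := D))] with ω hω
  by_cases k : ω ∈ A
  · rw [Set.indicator_of_mem k]
    refine Eq.trans (congrArg _ ?_) ((cylx lam hω γ n).trans ?_)
    · ext U
      simp [k]
    · congr
  · rw [Set.indicator_of_notMem k]
    refine Eq.trans (congrArg _ ?_) measure_empty
    ext U
    simp [k]

end Pool.Agent.MP_8c549f_pr.EX
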