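import Pool.Agent.MP_8c549f_pr.EX.Spec

/-! Null sets of step sequences. -/

set_option autoImplicit false

namespace Pool.Agent.MP_8c549f_pr.EX

open MeasureTheory Filter Topology Real
open scoped ENNReal NNReal

namespace NulA

variable {D : ℕ}

theorem fol {z : Om D} (h : ∀ n : ℕ, ∃ u : List (Step D), u.length = n ∧ z ∈ Cyl u) :
    ∃ s, Fol z s := by
  choose u hl hu using h
  refine ⟨fun i => (u (i + 1))[i]'(by rw [hl]; omega), fun n => ?_⟩
  have e : pre (fun i => (u (i + 1))[i]'(by rw [hl]; omega)) n = u n := by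
    refine List.ext_getElem (by rw [pre_length, hl]) fun i h1 h2 => ?_
    have h3 : i < n := by rwa [hl] at h2
    have h4 := HevM.prefix_of_Cyl (hu (i + 1)) (hu n) (by rw [hl, hl]; omega)
    simp only [pre, List.getElem_map, List.getElem_range]
    exact h4.getElem _
  rw [e]
  exact hu n

theorem mem_Tr {Q : List (Step D) → Prop} {s : ℕ → Step D} (h : {t | Q (pre s t)}.Infinite)
    (J : ℕ) : ∃ t, pre s t ∈ Tr Q J := by
  classical
  refine ⟨Nat.nth (fun t => Q (pre s t)) J, Nat.nth_mem_of_infinite h J, ?_⟩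
  rw [pre_length]
  refine Eq.trans ?_ (Nat.count_nth_of_infinite (p := fun t => Q (pre s t)) h J)
  rw [Nat.count_eq_card_filter_range, Nat.count_eq_card_filter_range]
  congr 1
  ext i
  simp only [Finset.mem_filter, Finset.mem_range]
  refine and_congr_right fun hi => ?_
  rw [pre_take s hi.le]

end NulA

theorem nul : NULStmt := by
  intro D p lam h0 h1 P hP
  obtain ⟨-, hne, hc, hae⟩ := law D p lam h0 h1 P hP
  have p2 : ∀ A : Set (List (Step D)), P (⋃ l ∈ A, Cyl l) ≤
      (perc D p (InfCl D))⁻¹ * ∫⁻ ω in InfCl D, SS A (W lam ω 0) ∂perc D p := by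
    intro A
    rw [lintegral_SS _ A (f := fun ω l => W lam ω 0 l) (measurable_W lam 0), ← SS_mul_left,
      SS_eq_tsum_subtype]
    refine (measure_biUnion_le P A.to_countable _).trans ?_
    exact ENNReal.tsum_le_tsum fun l => (hc l).2.le
  have p3 : ∀ Q : List (Step D) → Prop,
      Tendsto (fun J => ∫⁻ ω in InfCl D, SS (Tr Q J) (W lam ω 0) ∂perc D p) atTop (𝓝 0) →
      ∀ᵐ z ∂P, ∀ s, Fol z s → {t | Q (pre s t)}.Finite := by
    intro Q hQ
    have h2 := ENNReal.Tendsto.const_mul (a := (perc D p (InfCl D))⁻¹) hQ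
      (Or.inr (ENNReal.inv_ne_top.2 hne))
    rw [mul_zero] at h2
    rw [ae_iff]
    refine le_antisymm (ge_of_tendsto' h2 fun J => le_trans (measure_mono ?_) (p2 (Tr Q J))) zero_le
    intro z hz
    have hz' : ¬ ∀ s, Fol z s → {t | Q (pre s t)}.Finite := hz
    push Not at hz'
    obtain ⟨s, hs, hi⟩ := hz'
    obtain ⟨t, ht⟩ := NulA.mem_Tr hi J
    exact Set.mem_biUnion ht (hs t)
  refine ⟨hae.mono fun z hz => NulA.fol hz, p2, p3, fun Q σ hσ h => p3 Q ?_⟩
  refine tendsto_of_tendsto_of_tendsto_of_le_of_le tendsto_const_nhds (pow_tendsto hσ)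
    (fun _ => zero_le) fun J => le_trans ?_ (h J)
  rw [SS_wb]
  exact setLIntegral_le_lintegral _ _

end Pool.Agent.MP_8c549f_pr.EX
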