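import Pool.Agent.MP_8c549f_pr.EX.Spec

/-!
PROJECT EX, row Rev: reversal bound and the walk does not drift to minus infinity.
-/

set_option autoImplicit false

namespace Pool.Agent.MP_8c549f_pr.EX

open MeasureTheory Filter Topology Real
open scoped ENNReal NNReal

namespace RevA

variable {D : ℕ}

theorem wt_ge {lam : ℝ} (hl : 0 ≤ lam) (s : Step D) : exp (-lam) ≤ wt lam s := by
  have h : (-1 : ℝ) ≤ (vec s 0 : ℝ) := by exact_mod_cast (vec_bounds s 0).1
  exact exp_le_exp.2 (by nlinarith)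

theorem one_le {lam : ℝ} : 1 ≤ Zf D lam * exp lam := by
  have h1 : exp (-lam) * exp lam = 1 := by rw [← exp_add]; simp
  have h2 : exp (-lam) ≤ Zf D lam := by
    unfold Zf
    have := exp_pos lam
    have : (0 : ℝ) ≤ 2 * D := by positivity
    linarith
  exact h1 ▸ mul_le_mul_of_nonneg_right h2 (exp_pos lam).le

theorem pt {lam : ℝ} (hl : 0 ≤ lam) (ω : Cfg D) (k : ℕ) (l : List (Step D))
    (h : lev l ≤ -(k : ℤ)) : W lam ω 0 l ≤
      ENNReal.ofReal (Zf D lam * exp lam * exp (-(2 * lam * k))) * W lam ω (pos l) (Res.rv l) := by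
  cases l with
  | nil =>
    have hk : k = 0 := by
      rw [lev_nil] at h
      omega
    subst hk
    have : Res.rv ([] : List (Step D)) = [] := rfl
    rw [this, W_nil, W_nil, mul_one]
    refine ENNReal.one_le_ofReal.2 ?_
    simpa using one_le (D := D) (lam := lam)
  | cons s t =>
    by_cases h0 : W lam ω 0 (s :: t) = 0
    · rw [h0]; exact zero_le
    have ho : ω (edge 0 s) = true := by
      have := (W_ne_zero_iff lam ω (s :: t) 0).1 h0 0 (by simp)
      rwa [loc_zero, add_zero] at this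
    have e := Res.W_rv lam ω (s :: t) 0
    rw [zero_add] at e
    have a1 : exp (-lam) ≤ Res.pi lam ω 0 := by
      have := (wt_ge hl s).trans (wt_le_Zq lam ho)
      simpa [Res.pi] using this
    have a2 : Res.pi lam ω (pos (s :: t)) ≤ exp (-(2 * lam * k)) * Zf D lam := by
      unfold Res.pi
      refine mul_le_mul ?_ (Zq_le_Zf lam ω _) (Zq_nonneg lam ω _) (exp_pos _).le
      have h' : ((pos (s :: t) 0 : ℤ) : ℝ) ≤ -(k : ℝ) := by exact_mod_cast h
      exact exp_le_exp.2 (by nlinarith)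
    have a3 : ENNReal.ofReal (exp lam) * ENNReal.ofReal (exp (-lam)) = 1 := by
      rw [← ENNReal.ofReal_mul (exp_pos _).le, ← exp_add]; simp
    calc W lam ω 0 (s :: t)
        = ENNReal.ofReal (exp lam) * (ENNReal.ofReal (exp (-lam)) * W lam ω 0 (s :: t)) := by
          rw [← mul_assoc, a3, one_mul]
      _ ≤ ENNReal.ofReal (exp lam) * (ENNReal.ofReal (Res.pi lam ω 0) * W lam ω 0 (s :: t)) := by
          gcongr
      _ ≤ ENNReal.ofReal (exp lam) * (ENNReal.ofReal (exp (-(2 * lam * k)) * Zf D lam) *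
            W lam ω (pos (s :: t)) (Res.rv (s :: t))) := by
          rw [e]
          gcongr
      _ = _ := by
          rw [← mul_assoc, ← ENNReal.ofReal_mul (exp_pos _).le]
          congr 2
          ring

theorem wb_le {p lam : ℝ} (h0 : 0 ≤ p) (h1 : p ≤ 1) (hl : 0 ≤ lam) (k : ℕ) (l : List (Step D))
    (h : lev l ≤ -(k : ℤ)) : wb false p lam l ≤
      ENNReal.ofReal (Zf D lam * exp lam * exp (-(2 * lam * k))) * wb false p lam (Res.rv l) := by
  have e := shft D p h0 h1 (fun ω => W lam ω 0 (Res.rv l)) (pos l) (measurable_W lam 0 _)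
  simp only [W_shift, zero_add] at e
  have e2 : wb false p lam (Res.rv l) = ∫⁻ ω, W lam ω (pos l) (Res.rv l) ∂perc D p := e.symm
  rw [e2, ← lintegral_const_mul _ (measurable_W lam _ _)]
  exact lintegral_mono fun ω => pt hl ω k l h

end RevA

theorem revS : REVStmt := by
  intro D p lam h0 h1 hl n k
  refine (SS_mono subset_rfl fun l hl' => RevA.wb_le h0 h1 hl k l hl'.2).trans ?_
  rw [SS_mul_left, ← SS_image Res.rv_inj]
  refine mul_le_of_le_one_right' (kraft_wb false h0 h1 lam ((antich_length n).mono ?_))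
  rintro _ ⟨l, hl', rfl⟩
  simpa [Res.rv] using hl'.1

theorem back (h : NULStmt) : BACKStmt := by
  intro D p lam h0 h1 hl P hP
  obtain ⟨n1, n2, -⟩ := h D p lam h0 h1 P hP
  have hc : (perc D p (InfCl D))⁻¹ ≠ ∞ := ENNReal.inv_ne_top.2 (law D p lam h0 h1 P hP).2.1
  rw [ae_iff]
  have key : ∀ k : ℕ, P {z : Om D | ¬ ∃ k : ℕ, {n : ℕ | -(k : ℤ) ≤ z.2 n 0}.Infinite} ≤
      (perc D p (InfCl D))⁻¹ * ENNReal.ofReal (Zf D lam * exp lam * exp (-(2 * lam * k))) := by
    intro k
    have hs : {z : Om D | ¬ ∃ k : ℕ, {n : ℕ | -(k : ℤ) ≤ z.2 n 0}.Infinite} ⊆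
        ⋃ N : ℕ, {z : Om D | ∀ n, N ≤ n → z.2 n 0 ≤ -(k : ℤ)} := by
      intro z hz
      have hf : {n : ℕ | -(k : ℤ) ≤ z.2 n 0}.Finite := by
        by_contra hf
        exact hz ⟨k, hf⟩
      obtain ⟨N, hN⟩ := hf.bddAbove
      refine Set.mem_iUnion.2 ⟨N + 1, fun n hn => ?_⟩
      by_contra hlt
      have := hN (show -(k : ℤ) ≤ z.2 n 0 by omega)
      omega
    refine (measure_mono hs).trans ?_
    have hm : Monotone fun N : ℕ => {z : Om D | ∀ n, N ≤ n → z.2 n 0 ≤ -(k : ℤ)} :=
      fun N M hNM z hz n hn => hz n (hNM.trans hn)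
    rw [hm.measure_iUnion]
    refine iSup_le fun N => ?_
    refine (measure_mono_ae (t := ⋃ l ∈ {l : List (Step D) | l.length = N ∧ lev l ≤ -(k : ℤ)},
      Cyl l) ?_).trans ((n2 _).trans ?_)
    · filter_upwards [n1] with z hz hz2
      obtain ⟨s, hs⟩ := hz
      refine Set.mem_biUnion (x := pre s N) ⟨pre_length s N, ?_⟩ (hs N)
      rw [← hs.lev N]
      exact hz2 N le_rfl
    · refine mul_le_mul_right ?_ _
      refine le_trans ?_ (revS D p lam h0 h1 hl.le N k)
      rw [SS_wb]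
      exact setLIntegral_le_lintegral _ _
  have t1 : Tendsto (fun k : ℕ => Zf D lam * exp lam * exp (-(2 * lam * k))) atTop (𝓝 0) := by
    have := (tendsto_exp_neg_atTop_nhds_zero.comp
      (tendsto_natCast_atTop_atTop.const_mul_atTop (show 0 < 2 * lam by linarith))).const_mul
        (Zf D lam * exp lam)
    simpa using this
  have t2 := ENNReal.Tendsto.const_mul (ENNReal.tendsto_ofReal t1) (Or.inr hc)
  rw [ENNReal.ofReal_zero, mul_zero] at t2
  exact le_antisymm (ge_of_tendsto' t2 key) zero_le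

end Pool.Agent.MP_8c549f_pr.EX
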