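import Pool.Agent.MP_8c549f_pr.EX.Spec

/-! PROJECT EX: after a regeneration the walk makes a sequence of blocks. -/

set_option autoImplicit false

namespace Pool.Agent.MP_8c549f_pr.EX

open MeasureTheory Filter Topology Real
open scoped ENNReal NNReal

namespace SeqA

variable {D : ℕ}

theorem next (h : EXAStmt) {p lam : ℝ} (h0 : 0 ≤ p) (h1 : p ≤ 1) (hl : 0 ≤ lam)
    (hB : SS {l : List (Step D) | Block l} (wb true p lam) = 1) {P : Measure (Om D)}
    (hP : IsAnnealed D p lam P) {u : List (Step D)} (hu : Cand u u.length) :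
    ∀ᵐ z ∂P, z ∈ HevM.HU u → ∃ b, Block b ∧ z ∈ HevM.HU (u ++ b) := by
  have := hP.1
  have hm : ∀ b : {l : List (Step D) | Block l}, MeasurableSet (HevM.HU (u ++ b.1)) :=
    fun b => HevM.meas_HU (Law.meas_cyl _)
  have hd : Pairwise (Function.onFun Disjoint
      fun b : {l : List (Step D) | Block l} => HevM.HU (u ++ b.1)) := fun b b' hne =>
    Set.disjoint_left.2 fun z k k' => hne (Subtype.ext ((le_total b.1.length b'.1.length).elim
      (HevM.block_eq_of_le b.2 b'.2 k k') fun e => (HevM.block_eq_of_le b'.2 b.2 k' k e).symm))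
  have hs : P (⋃ b : {l : List (Step D) | Block l}, HevM.HU (u ++ b.1)) = P (HevM.HU u) := by
    rw [measure_iUnion hd hm, h D p lam h0 h1 hl P hP u hu,
      ← mul_one ((perc D p (InfCl D))⁻¹ * _), ← hB, ← SS_mul_left, SS_eq_tsum_subtype]
    refine tsum_congr fun b => ?_
    rw [h D p lam h0 h1 hl P hP _ (HevM.cand_append hu b.2),
      fa D p lam h0 h1 false u b hu fun i hi => b.2.1 i hi.le]
    ring
  have he := ae_eq_of_subset_of_measure_ge
    (Set.iUnion_subset fun b : {l : List (Step D) | Block l} => HevM.HU_append (u := u) b.2.1)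
    hs.ge (MeasurableSet.iUnion hm).nullMeasurableSet (measure_ne_top _ _)
  filter_upwards [he.mem_iff] with z hz k
  obtain ⟨b, hb⟩ := Set.mem_iUnion.1 (hz.2 k)
  exact ⟨b, b.2, hb⟩

theorem chain {z : Om D} (h : ∀ u : List (Step D), Cand u u.length → z ∈ HevM.HU u →
    ∃ b, Block b ∧ z ∈ HevM.HU (u ++ b)) {u : List (Step D)} (hu : Cand u u.length)
    (hz : z ∈ HevM.HU u) : ∃ β, Sq u z β := by
  choose f hf hf' using h
  let g : {u : List (Step D) // Cand u u.length ∧ z ∈ HevM.HU u} →
      {u : List (Step D) // Cand u u.length ∧ z ∈ HevM.HU u} := fun x =>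
    ⟨x.1 ++ f x.1 x.2.1 x.2.2, HevM.cand_append x.2.1 (hf _ _ _), hf' _ _ _⟩
  let x : ℕ → {u : List (Step D) // Cand u u.length ∧ z ∈ HevM.HU u} := fun n => g^[n] ⟨u, hu, hz⟩
  have e : ∀ N, cat u (fun n => f (x n).1 (x n).2.1 (x n).2.2) N = (x N).1 := fun N => by
    induction N with
    | zero => exact cat_zero _ _
    | succ N ih =>
      rw [cat_succ, ih]
      exact congrArg Subtype.val (Function.iterate_succ_apply' g N _).symm
  exact ⟨_, fun i => hf _ _ _, fun N => e N ▸ (x N).2.2⟩

end SeqA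

theorem seq (h : EXAStmt) : SEQStmt := by
  intro D p lam h0 h1 hl hB P hP
  have key : ∀ᵐ z ∂P, ∀ u : List (Step D), Cand u u.length → z ∈ HevM.HU u →
      ∃ b, Block b ∧ z ∈ HevM.HU (u ++ b) := ae_all_iff.2 fun u => by
    by_cases hu : Cand u u.length
    · filter_upwards [SeqA.next h h0 h1 hl hB hP hu] with z hz _ using hz
    · exact Eventually.of_forall fun _ k => absurd k hu
  filter_upwards [key] with z hz u hu k using SeqA.chain hz hu k

end Pool.Agent.MP_8c549f_pr.EX
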