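import Pool.Agent.MP_8c549f_pr.EX.Spec

/-! The strong law along all sequences that are dominated by a product weight. -/

set_option autoImplicit false

namespace Pool.Agent.MP_8c549f_pr.EX

open MeasureTheory ProbabilityTheory Filter Topology
open scoped ENNReal NNReal

theorem sl : SLStmt := by
  intro ι Ω _ _ P w f c A hc hw hf hA
  let _ : MeasurableSpace ι := ⊤
  have _ : DiscreteMeasurableSpace ι := ⟨fun _ => trivial⟩
  let q : PMF ι := ⟨w, hw ▸ ENNReal.summable.hasSum⟩
  let ν : Measure ι := q.toMeasure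
  have hν : ∀ i, ν {i} = w i := fun i => q.toMeasure_apply_singleton i trivial
  let μ : Measure (ℕ → ι) := Measure.infinitePi fun _ : ℕ => ν
  let g : ι → ℝ := fun i => f i
  have hg : Measurable g := measurable_of_countable g
  have hl : ∫⁻ i, ENNReal.ofReal (g i) ∂ν = ∑' i, (f i : ℝ≥0∞) * w i := by
    rw [lintegral_countable']
    exact tsum_congr fun i => by rw [hν, ENNReal.ofReal_natCast]
  have h0 : 0 ≤ᵐ[ν] g := Eventually.of_forall fun i => Nat.cast_nonneg _
  have hi : Integrable g ν :=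
    ⟨hg.aestronglyMeasurable, (hasFiniteIntegral_iff_ofReal h0).2 (hl ▸ hf.lt_top)⟩
  have ev := fun n => measurePreserving_eval_infinitePi (fun _ : ℕ => ν) n
  have hm : ∫ ω, g (ω 0) ∂μ = (∑' i, (f i : ℝ≥0∞) * w i).toReal := by
    rw [← hl, ← integral_eq_lintegral_of_nonneg_ae h0 hg.aestronglyMeasurable]
    exact (ev 0).hasLaw.integral_comp hg.aestronglyMeasurable
  have sl := strong_law_ae_real (μ := μ) (fun n ω => g (ω n))
    ((ev 0).integrable_comp_of_integrable hi)
    (fun i j hij => (iIndepFun_infinitePi (P := fun _ : ℕ => ν) (X := fun _ => g)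
      fun _ => hg).indepFun hij)
    (fun i => ((ev i).hasLaw.identDistrib (ev 0).hasLaw).comp hg)
  rw [hm] at sl
  generalize (∑' i, (f i : ℝ≥0∞) * w i).toReal = m at sl ⊢
  let C : (k : ℕ) → (Fin k → ι) → Set (ℕ → ι) := fun k b => Set.pi (Finset.range k : Set ℕ)
    fun n => if h : n < k then {b ⟨n, h⟩} else Set.univ
  have hC : ∀ k b ω, ω ∈ C k b ↔ ∀ i : Fin k, ω i = b i := fun k b ω =>
    ⟨fun h i => by simpa [i.2] using h i (by simp), fun h n hn => by
      have hn' : n < k := by simpa using hn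
      simpa [hn'] using h ⟨n, hn'⟩⟩
  have mC : ∀ k b, MeasurableSet (C k b) := fun k b =>
    MeasurableSet.pi (Finset.countable_toSet _) fun _ _ => trivial
  have pC : ∀ k b, μ (C k b) = ∏ i, w (b i) := fun k b => by
    rw [Measure.infinitePi_pi _ fun _ _ => MeasurableSet.of_discrete, Finset.prod_range]
    exact Finset.prod_congr rfl fun i _ => by rw [dif_pos i.2, hν]
  let E : ℝ → ℕ → Set (ℕ → ι) := fun δ K =>
    ⋃ k, ⋃ _ : K ≤ k, {β | δ ≤ dist ((∑ i ∈ Finset.range k, g (β i)) / k) m}
  have hE : ∀ δ K β, β ∈ E δ K ↔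
      ∃ k, K ≤ k ∧ δ ≤ dist ((∑ i ∈ Finset.range k, g (β i)) / k) m := fun δ K β => by
    simp only [E, Set.mem_iUnion, Set.mem_ofPred_eq, exists_prop]
  have key : ∀ δ : ℝ, 0 < δ →
      P {z | ∃ β : ℕ → ι, (∀ N, z ∈ A N fun i => β i) ∧ ∀ K, β ∈ E δ K} = 0 := fun δ hδ => by
    have mE : ∀ K, MeasurableSet (E δ K) := fun K => MeasurableSet.iUnion fun k =>
      MeasurableSet.iUnion fun _ => measurableSet_le measurable_const
        (((Finset.measurable_sum _ fun i _ => hg.comp (measurable_pi_apply i)).div_const _).dist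
          measurable_const)
    have t := tendsto_measure_iInter_atTop (μ := μ) (fun K => (mE K).nullMeasurableSet)
      (fun K K' h β hβ => by
        obtain ⟨k, k1, k2⟩ := (hE δ K' β).1 hβ
        exact (hE δ K β).2 ⟨k, h.trans k1, k2⟩) ⟨0, measure_ne_top _ _⟩
    have z0 : μ (⋂ K, E δ K) = 0 := by
      refine measure_eq_zero_iff_ae_notMem.2 (sl.mono fun β h hβ => ?_)
      obtain ⟨K, hK⟩ := Metric.tendsto_atTop.1 h δ hδ
      obtain ⟨k, k1, k2⟩ := (hE δ K β).1 (Set.mem_iInter.1 hβ K)
      exact absurd (hK k k1) (not_lt.2 k2)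
    rw [z0] at t
    have t2 := ENNReal.Tendsto.const_mul (a := c) t (Or.inr hc)
    rw [mul_zero] at t2
    refine le_zero_iff.1 (ge_of_tendsto' t2 fun K => ?_)
    let U : ℕ → Set Ω := fun N => {z | ∃ β : ℕ → ι, (∀ N', z ∈ A N' fun i => β i) ∧
      ∃ k, K ≤ k ∧ k ≤ N ∧ δ ≤ dist ((∑ i ∈ Finset.range k, g (β i)) / k) m}
    have mU : Monotone U := fun N N' h z ⟨β, b1, k, k1, k2, k3⟩ =>
      ⟨β, b1, k, k1, k2.trans h, k3⟩
    refine (measure_mono (t := ⋃ N, U N) ?_).trans ?_
    · rintro z ⟨β, b1, b2⟩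
      obtain ⟨k, k1, k2⟩ := (hE δ K β).1 (b2 K)
      exact Set.mem_iUnion.2 ⟨k, β, b1, k, k1, le_rfl, k2⟩
    rw [mU.measure_iUnion]
    refine iSup_le fun N => ?_
    classical
    calc P (U N) ≤ P (⋃ b : Fin N → ι, if C N b ⊆ E δ K then A N b else ∅) := by
          refine measure_mono ?_
          rintro z ⟨β, b1, k, k1, k2, k3⟩
          refine Set.mem_iUnion.2 ⟨fun i => β i, ?_⟩
          have e : (C N fun i => β i) ⊆ E δ K := fun ω h => (hE δ K ω).2 ⟨k, k1, by
            rwa [Finset.sum_congr (g := fun i => g (β i)) rfl fun i hi => congrArg g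
              ((hC N (fun i => β i) ω).1 h ⟨i, (Finset.mem_range.1 hi).trans_le k2⟩ :
                ω i = β i)]⟩
          rw [if_pos e]
          exact b1 N
      _ ≤ ∑' b : Fin N → ι, c * μ (if C N b ⊆ E δ K then C N b else ∅) := by
          refine (measure_iUnion_le _).trans (ENNReal.tsum_le_tsum fun b => ?_)
          split_ifs
          · rw [pC]
            exact hA N b
          · simp
      _ = c * μ (⋃ b, if C N b ⊆ E δ K then C N b else ∅) := by
          rw [ENNReal.tsum_mul_left]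
          refine congrArg _ (measure_iUnion (fun b b' hb => Set.disjoint_left.2
            fun ω h h' => hb ?_) fun b => ?_).symm
          · split_ifs at h h'
            · exact funext fun i => ((hC N b ω).1 h i).symm.trans ((hC N b' ω).1 h' i)
            all_goals simp at h h'
          · split_ifs; exacts [mC N b, MeasurableSet.empty]
      _ ≤ _ := by
          refine mul_le_mul_right (measure_mono (Set.iUnion_subset fun b ω h => ?_)) _
          split_ifs at h with hp
          exacts [hp h, h.elim]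
  have all := ae_all_iff.2 fun j : ℕ =>
    measure_eq_zero_iff_ae_notMem.1 (key (1 / (j + 1)) Nat.one_div_pos_of_nat)
  filter_upwards [all] with z hz β hβ
  refine Metric.tendsto_atTop.2 fun ε hε => ?_
  obtain ⟨j, hj⟩ := exists_nat_one_div_lt hε
  obtain ⟨K, hK⟩ := not_forall.1 fun h => hz j ⟨β, hβ, h⟩
  exact ⟨K, fun k hk => (not_le.1 fun h => hK ((hE _ K β).2 ⟨k, hk, h⟩)).trans hj⟩

end Pool.Agent.MP_8c549f_pr.EX
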