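import Pool.Agent.MP_8c549f_pr.EX.Spec
import Pool.Agent.MP_8c549f_pr.S3.Small
import Pool.Agent.MP_8c549f_pr.S3.Pei

/-!
PROJECT EX: close to `p = 1` an infinite cluster reaches every level.
-/

set_option autoImplicit false

namespace Pool.Agent.MP_8c549f_pr.EX

open MeasureTheory Filter Topology Real
open scoped ENNReal NNReal

namespace TallA

open Pool.Agent.MP_8c549f_pr.S3

variable {D : ℕ}

theorem reach (hD : 1 ≤ D) {ω : Cfg D} (hω : ω ∈ InfCl D) {m h : ℕ} (h1 : m + 1 ≤ h) (h2 : 2 ≤ h)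
    (hG : Gd ω 0 (8 * h) h) : ∃ y, Relation.ReflTransGen (Opn ω) 0 y ∧ (m : ℤ) < y 0 := by
  have hB : Big ω 0 h := by
    obtain ⟨c, hc, hc'⟩ := Set.Infinite.exists_notMem_finset hω (ball 0 (6 * h))
    exact ⟨c, hc, (not_le.1 fun e => hc' (mem_ball.2 e)).le⟩
  obtain ⟨u, hu, hu0⟩ : ∃ u : V D, nrm (u - 0) ≤ h ∧ u 0 = (m : ℤ) + 1 :=
    ⟨Pi.single 0 ((m : ℤ) + 1), by rw [sub_zero, nrm_single]; omega, by simp⟩
  obtain ⟨r, hr, hR⟩ := le D hD ω u h fun v hv =>
    hG v ((nrm_tri v u 0).trans (by omega))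
  have h3 := nrm_tri (ray u r) u 0
  rw [nrm_ray] at h3
  have h4 := lu D hD ω 0 (ray u r) h h2 hB hR (by omega) fun v hv => hG v (by omega)
  have h6 : ∀ y, OC ω (ball 0 (4 * h)) 0 y → Relation.ReflTransGen (Opn ω) 0 y := by
    intro y hy
    induction hy with
    | refl => exact .refl
    | tail _ e ih => exact ih.tail e.1
  refine ⟨ray u r, h6 _ h4, ?_⟩
  have h5 : (0 : Fin (D + 1)) ≠ Fin.last D := fun e => by
    have := congrArg Fin.val e
    simp at this
    omega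
  simp [ray, Pi.single_eq_of_ne h5, hu0]

theorem bad_le {p : ℝ} (h0 : 0 ≤ p) (h1 : p ≤ 1) (h : ℕ)
    (he : ∀ v : V D, (perc D p).real {ω | Ch ω v h} ≤ exp (-(1 * (h + 1)))) :
    (perc D p).real {ω | ¬Gd ω 0 (8 * h) h} ≤
      16 ^ (D + 1) * (((h : ℝ) + 1) ^ (D + 1) * exp (-((h : ℝ) + 1))) := by
  have hP := perc_prob D h0 h1
  calc (perc D p).real {ω | ¬Gd ω 0 (8 * h) h}
      ≤ (perc D p).real (⋃ v ∈ ball (0 : V D) (8 * h), {ω | Ch ω v h}) := by
        refine measureReal_mono (fun ω hω => ?_) (measure_ne_top _ _)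
        obtain ⟨v, hv⟩ := not_forall.1 hω
        obtain ⟨a, b⟩ := Classical.not_imp.1 hv
        exact Set.mem_biUnion (mem_ball.2 a) (not_not.1 b)
    _ ≤ ∑ v ∈ ball (0 : V D) (8 * h), (perc D p).real {ω | Ch ω v h} :=
        measureReal_biUnion_finset_le _ _
    _ ≤ (ball (0 : V D) (8 * h)).card • exp (-(1 * ((h : ℝ) + 1))) :=
        Finset.sum_le_card_nsmul _ _ _ fun v _ => he v
    _ ≤ _ := by
        rw [card_ball, nsmul_eq_mul, one_mul, ← mul_assoc (16 ^ (D + 1) : ℝ), ← mul_pow]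
        push_cast
        have : (0 : ℝ) ≤ h := Nat.cast_nonneg h
        gcongr
        linarith

theorem lim (D : ℕ) : Tendsto (fun h : ℕ =>
    (16 : ℝ) ^ (D + 1) * (((h : ℝ) + 1) ^ (D + 1) * exp (-((h : ℝ) + 1)))) atTop (𝓝 0) := by
  have h := ((tendsto_pow_mul_exp_neg_atTop_nhds_zero (D + 1)).comp
    (tendsto_atTop_add_const_right atTop (1 : ℝ) tendsto_natCast_atTop_atTop)).const_mul
    ((16 : ℝ) ^ (D + 1))
  rw [mul_zero] at h
  exact h

end TallA

theorem tall : TALLStmt := by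
  intro D hD
  obtain ⟨e, e0, he⟩ := S3.pei D 1
  refine ⟨e, e0, fun p hp h1 h0 => ?_⟩
  have hP := perc_prob D h0 h1
  have key : ∀ m : ℕ, ∀ᵐ ω ∂perc D p, ω ∈ InfCl D →
      ∃ y, Relation.ReflTransGen (Opn ω) 0 y ∧ (m : ℤ) < y 0 := by
    intro m
    rw [ae_iff, ← measureReal_eq_zero_iff]
    refine le_antisymm (ge_of_tendsto (TallA.lim D) ?_) measureReal_nonneg
    filter_upwards [eventually_ge_atTop (m + 1), eventually_ge_atTop 2] with h a b
    refine le_trans (measureReal_mono (fun ω hω => ?_) (measure_ne_top _ _))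
      (TallA.bad_le h0 h1 h fun v => he p hp h1 h0 v h)
    exact fun hG => hω fun hI => TallA.reach hD hI a b hG
  filter_upwards [ae_all_iff.2 key] with ω h hI m using h m hI

end Pool.Agent.MP_8c549f_pr.EX
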