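import Mathlib.Data.Nat.Nth
import Pool.Agent.MP_8c549f_pr.FinalA

/-!
PROJECT EX: the speed exists. Definitions and statements.
-/

set_option autoImplicit false

namespace Pool.Agent.MP_8c549f_pr.EX

open MeasureTheory Filter Topology Real
open scoped ENNReal NNReal

variable {D : ℕ}

abbrev Om (D : ℕ) : Type := Cfg D × (ℕ → V D)

/-- the first `n` steps -/
def pre (s : ℕ → Step D) (n : ℕ) : List (Step D) := (List.range n).map s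

/-- the walk of `z` makes the steps `s` -/
def Fol (z : Om D) (s : ℕ → Step D) : Prop := ∀ n, z ∈ Cyl (pre s n)

open Classical in
/-- the lists that end at the trial number `J` (counted from `0`) -/
def Tr (Q : List (Step D) → Prop) (J : ℕ) : Set (List (Step D)) :=
  {l | Q l ∧ Nat.count (fun i => Q (l.take i)) l.length = J}

/-- first visit of a column above the level `- k`, with no visit above the level `m` so far -/
def Fresh (m k : ℕ) (l : List (Step D)) : Prop :=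
  (∀ i ≤ l.length, H l i ≤ m) ∧ -(k : ℤ) ≤ lev l ∧
    ∀ i < l.length, -(k : ℤ) ≤ H l i → ∃ j : Fin D, loc l i j.succ ≠ pos l j.succ

/-- a visit of `x`, with no visit above the level `m` so far -/
def Vis (m : ℕ) (x : V D) (l : List (Step D)) : Prop :=
  (∀ i ≤ l.length, H l i ≤ m) ∧ pos l = x

/-- a record without any cut -/
def NoC (l : List (Step D)) : Prop := Rec l ∧ 1 ≤ lev l ∧ ∀ t, ¬ Cut l t

/-- an infinite cluster reaches every level -/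
def Tall (D : ℕ) (p : ℝ) : Prop :=
  ∀ᵐ ω ∂perc D p, ω ∈ InfCl D → ∀ m : ℕ, ∃ y, Relation.ReflTransGen (Opn ω) 0 y ∧ (m : ℤ) < y 0

/-- `u` followed by `N` blocks -/
def cat (u : List (Step D)) (β : ℕ → List (Step D)) (N : ℕ) : List (Step D) :=
  u ++ ((List.range N).map β).flatten

/-- after `u` the walk makes the blocks `β` -/
def Sq (u : List (Step D)) (z : Om D) (β : ℕ → List (Step D)) : Prop :=
  (∀ i, Block (β i)) ∧ ∀ N, z ∈ HevM.HU (cat u β N)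

/-! ### small facts -/

@[simp] theorem pre_length (s : ℕ → Step D) (n : ℕ) : (pre s n).length = n := by simp [pre]

theorem pre_take (s : ℕ → Step D) {i n : ℕ} (h : i ≤ n) : (pre s n).take i = pre s i := by
  rw [pre, ← List.map_take, List.take_range, min_eq_left h, pre]

theorem pre_succ (s : ℕ → Step D) (n : ℕ) : pre s (n + 1) = pre s n ++ [s n] := by
  simp [pre, List.range_succ]

theorem loc_pre (s : ℕ → Step D) {i n : ℕ} (h : i ≤ n) : loc (pre s n) i = pos (pre s i) := by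
  rw [loc, pre_take s h]

theorem H_pre (s : ℕ → Step D) {i n : ℕ} (h : i ≤ n) : H (pre s n) i = lev (pre s i) := by
  rw [H, loc_pre s h, lev]

theorem Fol.pos {z : Om D} {s : ℕ → Step D} (h : Fol z s) (n : ℕ) : z.2 n = pos (pre s n) := by
  rw [h n n (by simp), loc_pre s le_rfl]

theorem Fol.lev {z : Om D} {s : ℕ → Step D} (h : Fol z s) (n : ℕ) : z.2 n 0 = lev (pre s n) := by
  rw [h.pos n]; rfl

theorem cat_zero (u : List (Step D)) (β : ℕ → List (Step D)) : cat u β 0 = u := by simp [cat]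

theorem cat_succ (u : List (Step D)) (β : ℕ → List (Step D)) (N : ℕ) :
    cat u β (N + 1) = cat u β N ++ β N := by simp [cat, List.range_succ]

theorem ofFn_range {α : Type} (β : ℕ → α) (N : ℕ) :
    (List.ofFn fun i : Fin N => β i) = (List.range N).map β :=
  List.ext_getElem (by simp) fun i _ _ => by simp

theorem pow_tendsto {σ : ℝ≥0∞} (h : σ ≠ 0) : Tendsto (fun J : ℕ => (1 - σ) ^ J) atTop (𝓝 0) :=
  ENNReal.tendsto_pow_atTop_nhds_zero_of_lt_one (ENNReal.sub_lt_self ENNReal.one_ne_top one_ne_zero h)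

/-! ### the law -/

def LAWXStmt : Prop := ∀ (D : ℕ) (p lam : ℝ), 0 ≤ p → p ≤ 1 → perc D p (InfCl D) ≠ 0 →
  ∃ P, IsAnnealed D p lam P

def INFStmt : Prop := ∀ (D : ℕ) (p lam : ℝ), 0 < p → p ≤ 1 → 0 ≤ lam → qq D p lam ≠ 0 →
  perc D p (InfCl D) ≠ 0

def EXAStmt : Prop := ∀ (D : ℕ) (p lam : ℝ), 0 ≤ p → p ≤ 1 → 0 ≤ lam →
  ∀ P : Measure (Om D), IsAnnealed D p lam P → ∀ u : List (Step D), Cand u u.length →
    P (HevM.HU u) = (perc D p (InfCl D))⁻¹ * (wb false p lam u * qq D p lam)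

/-! ### trials -/

def TRIStmt : Prop := ∀ (D : ℕ) (f : List (Step D) → ℝ≥0∞) (Q : List (Step D) → Prop) (σ : ℝ≥0∞),
  f [] ≤ 1 → (∀ T, Antich T → ∀ u, SS T (fun t => f (u ++ t)) ≤ f u) →
  (∀ u, Q u → ∀ n : ℕ, ∃ G : Set (List (Step D)), Antich G ∧
    σ * f u ≤ SS G (fun t => f (u ++ t)) ∧
    ∀ g ∈ G, ∀ t, t ≠ [] → t.length ≤ n → Q (u ++ t) → ¬ t <+: g ∧ ¬ g <+: t) →
  ∀ J, SS (Tr Q J) f ≤ (1 - σ) ^ J

def NULStmt : Prop := ∀ (D : ℕ) (p lam : ℝ), 0 ≤ p → p ≤ 1 →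
  ∀ P : Measure (Om D), IsAnnealed D p lam P →
    (∀ᵐ z ∂P, ∃ s, Fol z s) ∧
    (∀ A : Set (List (Step D)), P (⋃ l ∈ A, Cyl l) ≤
      (perc D p (InfCl D))⁻¹ * ∫⁻ ω in InfCl D, SS A (W lam ω 0) ∂perc D p) ∧
    (∀ Q : List (Step D) → Prop,
      Tendsto (fun J => ∫⁻ ω in InfCl D, SS (Tr Q J) (W lam ω 0) ∂perc D p) atTop (𝓝 0) →
      ∀ᵐ z ∂P, ∀ s, Fol z s → {t | Q (pre s t)}.Finite) ∧
    ∀ (Q : List (Step D) → Prop) (σ : ℝ≥0∞), σ ≠ 0 →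
      (∀ J, SS (Tr Q J) (wb false p lam) ≤ (1 - σ) ^ J) →
      ∀ᵐ z ∂P, ∀ s, Fol z s → {t | Q (pre s t)}.Finite

def REVStmt : Prop := ∀ (D : ℕ) (p lam : ℝ), 0 ≤ p → p ≤ 1 → 0 ≤ lam → ∀ n k : ℕ,
  SS {l : List (Step D) | l.length = n ∧ lev l ≤ -(k : ℤ)} (wb false p lam) ≤
    ENNReal.ofReal (Zf D lam * exp lam * exp (-(2 * lam * k)))

def BACKStmt : Prop := ∀ (D : ℕ) (p lam : ℝ), 0 ≤ p → p ≤ 1 → 0 < lam →
  ∀ P : Measure (Om D), IsAnnealed D p lam P →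
    ∀ᵐ z ∂P, ∃ k : ℕ, {n : ℕ | -(k : ℤ) ≤ z.2 n 0}.Infinite

def FRStmt : Prop := ∀ (D : ℕ) (p lam : ℝ), 0 < p → p ≤ 1 → ∀ m k : ℕ, ∃ σ : ℝ≥0∞, σ ≠ 0 ∧
  ∀ J, SS (Tr (Fresh (D := D) m k) J) (wb false p lam) ≤ (1 - σ) ^ J

def VIStmt : Prop := ∀ (D : ℕ) (lam : ℝ) (ω : Cfg D) (m : ℕ) (x : V D),
  (∃ y, Relation.ReflTransGen (Opn ω) 0 y ∧ (m : ℤ) < y 0) →
    Tendsto (fun J => SS (Tr (Vis m x) J) (W lam ω 0)) atTop (𝓝 0)

def TALLStmt : Prop := ∀ D : ℕ, 1 ≤ D → ∃ e₀ : ℝ, 0 < e₀ ∧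
  ∀ p, 1 - e₀ ≤ p → p ≤ 1 → 0 ≤ p → Tall D p

def COLStmt : Prop := ∀ (D : ℕ) (s : ℕ → Step D) (m k : ℕ), (∀ n, lev (pre s n) ≤ m) →
  {t | Fresh m k (pre s t)}.Finite → (∀ x, {t | Vis m x (pre s t)}.Finite) →
    {n : ℕ | -(k : ℤ) ≤ lev (pre s n)}.Finite

def SUPStmt : Prop := ∀ (D : ℕ) (p lam : ℝ), 0 < p → p ≤ 1 → 0 < lam → Tall D p →
  ∀ P : Measure (Om D), IsAnnealed D p lam P → ∀ᵐ z ∂P, ∀ m : ℕ, ∃ n, (m : ℤ) < z.2 n 0

def CQStmt : Prop := ∀ (D : ℕ) (p lam : ℝ), 0 < p → p ≤ 1 → qq D p lam ≠ 0 →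
  ∃ σ : ℝ≥0∞, σ ≠ 0 ∧ ∀ J, SS (Tr (NoC (D := D)) J) (wb false p lam) ≤ (1 - σ) ^ J

def CCStmt : Prop := ∀ (D : ℕ) (s : ℕ → Step D), (∀ m : ℕ, ∃ n, (m : ℤ) < lev (pre s n)) →
  (∀ t, Cand (pre s t) t → ∃ n, t ≤ n ∧ lev (pre s n) < lev (pre s t)) →
    {t | NoC (pre s t)}.Infinite

/-! ### blocks and the strong law -/

def SEQStmt : Prop := ∀ (D : ℕ) (p lam : ℝ), 0 ≤ p → p ≤ 1 → 0 ≤ lam →
  SS {l : List (Step D) | Block l} (wb true p lam) = 1 →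
  ∀ P : Measure (Om D), IsAnnealed D p lam P →
    ∀ᵐ z ∂P, ∀ u, Cand u u.length → z ∈ HevM.HU u → ∃ β, Sq u z β

def SLStmt : Prop := ∀ (ι Ω : Type) [Countable ι] [MeasurableSpace Ω] (P : Measure Ω)
  (w : ι → ℝ≥0∞) (f : ι → ℕ) (c : ℝ≥0∞) (A : (N : ℕ) → (Fin N → ι) → Set Ω), c ≠ ∞ →
  ∑' i, w i = 1 → ∑' i, (f i : ℝ≥0∞) * w i ≠ ∞ → (∀ N b, P (A N b) ≤ c * ∏ i, w (b i)) →
  ∀ᵐ z ∂P, ∀ β : ℕ → ι, (∀ N, z ∈ A N fun i => β i) →
    Tendsto (fun k : ℕ => (∑ i ∈ Finset.range k, (f (β i) : ℝ)) / k) atTop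
      (𝓝 (∑' i, (f i : ℝ≥0∞) * w i).toReal)

def BLStmt : Prop := ∀ (D : ℕ) (p lam : ℝ), 0 ≤ p → p ≤ 1 → 0 ≤ lam →
  SS {l : List (Step D) | Block l} (wb true p lam) = 1 →
  ∀ P : Measure (Om D), IsAnnealed D p lam P → ∀ f : List (Step D) → ℕ,
    SS {l : List (Step D) | Block l} (fun l => f l * wb true p lam l) ≠ ∞ →
    ∀ᵐ z ∂P, ∀ u β, Cand u u.length → Sq u z β →
      Tendsto (fun k : ℕ => (∑ i ∈ Finset.range k, (f (β i) : ℝ)) / k) atTop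
        (𝓝 (SS {l : List (Step D) | Block l} fun l => f l * wb true p lam l).toReal)

def DETStmt : Prop := ∀ (D : ℕ) (u : List (Step D)) (z : Om D) (β : ℕ → List (Step D)),
  Sq u z β → ∀ n, u.length ≤ n → ∃ k,
    u.length + ∑ i ∈ Finset.range k, (β i).length ≤ n ∧
    n < u.length + ∑ i ∈ Finset.range (k + 1), (β i).length ∧
    lev u + (∑ i ∈ Finset.range k, (lev (β i)).toNat : ℕ) ≤ z.2 n 0 ∧
    z.2 n 0 ≤ lev u + (∑ i ∈ Finset.range (k + 1), (lev (β i)).toNat : ℕ)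

def ANStmt : Prop := ∀ (S T : ℕ → ℕ) (x : ℕ → ℤ) (a : ℕ) (c : ℤ) (B : ℝ), Monotone S →
  (∀ k, k ≤ S k) →
  (∀ n, a ≤ n → ∃ k, a + S k ≤ n ∧ n < a + S (k + 1) ∧ c + T k ≤ x n ∧ x n ≤ c + T (k + 1)) →
  Tendsto (fun k : ℕ => (T k : ℝ) / k) atTop (𝓝 B) →
  (∀ A : ℝ, Tendsto (fun k : ℕ => (S k : ℝ) / k) atTop (𝓝 A) →
    Tendsto (fun n : ℕ => (x n : ℝ) / n) atTop (𝓝 (B / A))) ∧
  (Tendsto (fun k : ℕ => (S k : ℝ) / k) atTop atTop →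
    Tendsto (fun n : ℕ => (x n : ℝ) / n) atTop (𝓝 0))

def GENStmt : Prop := ∀ (D : ℕ) (p lam : ℝ), 0 < p → p ≤ 1 → 0 < lam → Tall D p →
  qq D p lam ≠ 0 → SS {l : List (Step D) | Block l} (wb true p lam) = 1 → BB D p lam ≠ ∞ →
    ∃ v, HasSpeed D p lam v

end Pool.Agent.MP_8c549f_pr.EX
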