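import Pool.Agent.MP_8c549f_pr.L3.Main
import Pool.Agent.MP_8c549f_pr.EX.Spec

/-!
PROJECT EX: for `p` close to `1` the speed exists and is unique for every positive bias.
-/

set_option autoImplicit false

namespace Pool.Agent.MP_8c549f_pr.EX

open MeasureTheory Filter Topology Real
open scoped ENNReal NNReal

theorem top (hG : GENStmt) (hT : TALLStmt) (D : ℕ) (hD : 1 ≤ D) : ∃ p₀ : ℝ, p₀ < 1 ∧
    ∀ p : ℝ, p₀ < p → p < 1 → ∃ v : ℝ → ℝ, ∀ x, 0 < x → ∀ w, HasSpeed D p x w ↔ w = v x := by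
  obtain ⟨a, p1, a0, a1, a2, h1⟩ :=
    L2.smallR L2.cFin (L2.regS (L2.three L2.step)) L2.cRg L2.cOne D hD
  obtain ⟨e2, he2, h2⟩ := oneS D hD a a0
  obtain ⟨e3, he3, h3⟩ := hT D hD
  refine ⟨max p1 (1 - min e2 e3), max_lt a2 (by have := lt_min he2 he3; linarith), ?_⟩
  intro p hp hp1
  simp only [max_lt_iff] at hp
  have p0 : 0 < p := a1.trans_lt hp.1
  have key : ∀ x, 0 < x → qq D p x ≠ 0 ∧
      SS {l : List (Step D) | Block l} (wb true p x) = 1 ∧ BB D p x ≠ ∞ := fun x hx => by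
    rcases le_total x a with h | h
    · obtain ⟨o1, o2, -, o4⟩ := (h1 p hp.1 hp1).1 x hx h
      exact ⟨o1, o2, o4⟩
    · exact h2 p x (by linarith [min_le_left e2 e3]) hp1.le h
  classical
  refine ⟨fun x => if AA D p x = ∞ then 0 else BR D p x / AR D p x, fun x hx => ?_⟩
  obtain ⟨o1, o2, o3⟩ := key x hx
  have u : ∀ w, HasSpeed D p x w → w = if AA D p x = ∞ then 0 else BR D p x / AR D p x := by
    intro w hw
    obtain ⟨t1, t2⟩ := transS D p x w p0 hp1.le hx.le o1 o2 o3 hw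
    split_ifs with h
    · exact t2 h
    · exact t1 h
  obtain ⟨v, hv⟩ := hG D p x p0 hp1.le hx
    (h3 p (by linarith [min_le_right e2 e3]) hp1.le p0.le) o1 o2 o3
  exact fun w => ⟨u w, fun h => by rw [h.trans (u v hv).symm]; exact hv⟩

end Pool.Agent.MP_8c549f_pr.EX
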