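import Pool.Agent.MP_8c549f_pr.EX.Spec

/-!
Repeated trials: each trial is followed by another one with weight at most `1 - σ`.
-/

set_option autoImplicit false

namespace Pool.Agent.MP_8c549f_pr.EX

open scoped ENNReal

variable {D : ℕ}

namespace TriA

theorem last {p : ℕ → Prop} [DecidablePred p] {J : ℕ} (n : ℕ) (h : Nat.count p n = J + 1) :
    ∃ i < n, p i ∧ Nat.count p i = J := by
  induction n with
  | zero => simp at h
  | succ n ih =>
    rw [Nat.count_succ] at h
    split_ifs at h with hp
    · exact ⟨n, n.lt_succ_self, hp, by omega⟩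
    · obtain ⟨i, hi, h'⟩ := ih h
      exact ⟨i, hi.trans n.lt_succ_self, h'⟩

open Classical in
theorem cnt_app (Q : List (Step D) → Prop) (u t : List (Step D)) :
    Nat.count (fun j => Q ((u ++ t).take j)) u.length =
      Nat.count (fun j => Q (u.take j)) u.length := by
  rw [Nat.count_eq_card_filter_range, Nat.count_eq_card_filter_range]
  congr 1
  refine Finset.filter_congr fun j hj => ?_
  rw [List.take_append_of_le_length (Finset.mem_range.1 hj).le]

theorem lt {Q : List (Step D) → Prop} {J K : ℕ} {u t : List (Step D)} (hu : u ∈ Tr Q J)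
    (h : u ++ t ∈ Tr Q K) (ht : t ≠ []) : J < K := by
  classical
  have h1 : u.length + 1 ≤ (u ++ t).length := by
    have := List.length_pos_iff.2 ht
    rw [List.length_append]
    omega
  have h2 := Nat.count_monotone (fun j => Q ((u ++ t).take j)) h1
  rw [Nat.count_succ, if_pos (by simpa using hu.1)] at h2
  have h3 := cnt_app Q u t
  have h4 := hu.2
  have h5 := h.2
  omega

theorem anti (Q : List (Step D) → Prop) (J : ℕ) : Antich (Tr Q J) := by
  rintro u hu _ hl ⟨t, rfl⟩
  by_contra hn
  exact lt_irrefl _ (lt hu hl fun e => hn (by simp [e]))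

theorem pref {Q : List (Step D) → Prop} {J : ℕ} {l : List (Step D)} (h : l ∈ Tr Q (J + 1)) :
    ∃ u ∈ Tr Q J, u <+: l := by
  classical
  obtain ⟨i, hi, h1, h2⟩ := last _ h.2
  refine ⟨l.take i, ⟨h1, ?_⟩, List.take_prefix i l⟩
  rw [← cnt_app Q _ (l.drop i), List.take_append_drop, List.length_take, min_eq_left hi.le]
  exact h2

end TriA

open TriA in
theorem tri : TRIStmt := by
  intro D f Q σ h1 hc hG J
  have hf : ∀ u, f u ≠ ∞ := fun u => by
    have := hc {u} (fun a ha b hb _ => ha.trans hb.symm) []
    rw [SS_singleton] at this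
    exact ne_top_of_le_ne_top ENNReal.one_ne_top (this.trans h1)
  induction J with
  | zero => exact (hc _ (anti Q 0) []).trans (h1.trans (pow_zero _).ge)
  | succ J ih =>
    rw [pow_succ']
    refine le_trans (LatM.cover_fac (P := Tr Q J) (1 - σ) (fun l hl => pref hl) fun u hu => ?_)
      (mul_le_mul_right ih _)
    rw [SS_eq_iSup_length]
    refine iSup_le fun n => ?_
    obtain ⟨G, hA, hs, hd⟩ := hG u hu.1 n
    have key : ∀ g ∈ G, ∀ t ∈ {l | l ∈ {t | u ++ t ∈ Tr Q (J + 1)} ∧ l.length ≤ n},
        ¬ t <+: g ∧ ¬ g <+: t := fun g hg t ht =>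
      hd g hg t (fun e => by
        have h2 := ht.1.2
        have h3 := hu.2
        rw [e, List.append_nil] at h2
        omega) ht.2 ht.1.1
    have h4 := hc ({l | l ∈ {t | u ++ t ∈ Tr Q (J + 1)} ∧ l.length ≤ n} ∪ G) (by
      rintro a (ha | ha) b (hb | hb) hab
      · exact List.append_cancel_left
          (anti Q _ _ ha.1 _ hb.1 ((List.prefix_append_right_inj u).2 hab))
      · exact absurd hab (key b hb a ha).1
      · exact absurd hab (key a ha b hb).2
      · exact hA a ha b hb hab) u
    rw [SS_union (Set.disjoint_left.2 fun t ht hg => (key t hg t ht).1 List.prefix_rfl)] at h4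
    rw [ENNReal.sub_mul fun _ _ => hf u, one_mul]
    refine ENNReal.le_sub_of_add_le_right ?_ (le_trans (add_le_add le_rfl hs) h4)
    exact ne_top_of_le_ne_top (hf u) (hs.trans (le_trans le_add_self h4))

end Pool.Agent.MP_8c549f_pr.EX
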