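import Pool.Agent.MP_8c549f_pr.EX.Spec

/-!
PROJECT EX, row VI: a site is visited finitely often below a level.
-/

set_option autoImplicit false

namespace Pool.Agent.MP_8c549f_pr.EX

open MeasureTheory Filter Topology Real
open scoped ENNReal NNReal

theorem vi (h : TRIStmt) : VIStmt := by
  intro D lam ω m x ⟨y, hy, hm⟩
  by_cases hx : Relation.ReflTransGen (Opn ω) 0 x
  · have hs : ∀ a, Relation.ReflTransGen (Opn ω) 0 a → Relation.ReflTransGen (Opn ω) a 0 := by
      intro a ha
      induction ha with
      | refl => exact .refl
      | tail _ k ih => exact ih.head k.symm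
    have hxy : Relation.ReflTransGen (Opn ω) x y := (hs x hx).trans hy
    have ex : ∃ n, ∃ g : List (Step D), g.length = n ∧ W lam ω x g ≠ 0 ∧
        (m : ℤ) < (x + pos g) 0 := by
      obtain ⟨g, g1, g2⟩ := (Law.reach_iff ω x y).1 hxy
      exact ⟨_, g, rfl, (W_ne_zero_iff _ _ _ _).2 ((W_ne_zero_iff _ _ _ _).1 g1), g2 ▸ hm⟩
    classical
    obtain ⟨g, g0, g1, g2⟩ := Nat.find_spec ex
    have key := h D (W lam ω 0) (Vis m x) (W lam ω x g) (by simp)
      (fun T hT u => cont_q lam ω hT 0 u) fun u hu n => ⟨{g}, fun a ha b hb _ => ha.trans hb.symm,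
        by rw [SS_singleton, W_append, zero_add, hu.2, mul_comm], by
        intro g' hg t ht _ hq
        rw [Set.mem_singleton_iff.1 hg]
        constructor
        · rintro ⟨r, rfl⟩
          have e : pos t = 0 := by
            have := hq.2
            rw [pos_append, hu.2] at this
            exact add_eq_left.1 this
          rw [W_append, e, add_zero] at g1
          rw [pos_append, e, zero_add] at g2
          refine Nat.find_min ex (m := r.length) ?_ ⟨r, rfl, right_ne_zero_of_mul g1, g2⟩
          rw [← g0, List.length_append]
          have := List.length_pos_iff.2 ht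
          omega
        · rintro ⟨r, rfl⟩
          have := hq.1 (u.length + g.length) (by simp)
          rw [H_append_right, H_append_left r le_rfl, H_length, lev, lev, hu.2] at this
          exact absurd g2 (not_lt.2 this)⟩
    exact tendsto_of_tendsto_of_tendsto_of_le_of_le tendsto_const_nhds (pow_tendsto g1)
      (fun _ => zero_le) key
  · have e : ∀ J, SS (Tr (Vis m x) J) (W lam ω 0) = 0 := fun J => by
      refine le_antisymm ((SS_mono' (B := ∅) fun l hl k => hx ?_).trans (SS_empty _).le) zero_le
      have := HevM.reach k l.length le_rfl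
      rwa [loc_length, zero_add, hl.1.2] at this
    simp only [e]
    exact tendsto_const_nhds

end Pool.Agent.MP_8c549f_pr.EX
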