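import Pool.Agent.MP_8c549f_pr.EX.Asm
import Pool.Agent.MP_8c549f_pr.EX.Top
import Pool.Agent.MP_8c549f_pr.EX.Lawx
import Pool.Agent.MP_8c549f_pr.EX.Exa
import Pool.Agent.MP_8c549f_pr.EX.Tri
import Pool.Agent.MP_8c549f_pr.EX.Null
import Pool.Agent.MP_8c549f_pr.EX.Rev
import Pool.Agent.MP_8c549f_pr.EX.Fr
import Pool.Agent.MP_8c549f_pr.EX.Vi
import Pool.Agent.MP_8c549f_pr.EX.Tall
import Pool.Agent.MP_8c549f_pr.EX.Col
import Pool.Agent.MP_8c549f_pr.EX.Cq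
import Pool.Agent.MP_8c549f_pr.EX.Cc
import Pool.Agent.MP_8c549f_pr.EX.Seq
import Pool.Agent.MP_8c549f_pr.EX.Sl
import Pool.Agent.MP_8c549f_pr.EX.Bl
import Pool.Agent.MP_8c549f_pr.EX.Det
import Pool.Agent.MP_8c549f_pr.EX.An

/-!
PROJECT EX: for `p` close to `1` the speed exists and is unique for every positive bias.
-/

set_option autoImplicit false

namespace Pool.Agent.MP_8c549f_pr.EX

theorem genS : GENStmt :=
  gen lawx inf nul (sup nul (back nul) (fr tri) (vi tri) col) (cq tri) cc (seq exa) (bl exa sl) det an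

theorem speed (D : ℕ) (hD : 1 ≤ D) : ∃ p₀ : ℝ, p₀ < 1 ∧
    ∀ p : ℝ, p₀ < p → p < 1 → ∃ v : ℝ → ℝ, ∀ x, 0 < x → ∀ w, HasSpeed D p x w ↔ w = v x :=
  top genS tall D hD

/-- a statement on every speed function holds for the speed -/
theorem lift {D : ℕ} (hD : 1 ≤ D) {R : ℝ → (ℝ → ℝ) → Prop}
    (h : ∃ p₀ : ℝ, p₀ < 1 ∧ ∀ p : ℝ, p₀ < p → p < 1 → ∀ v : ℝ → ℝ,
      (∀ x, 0 < x → HasSpeed D p x (v x)) → R p v) :
    ∃ p₀ : ℝ, p₀ < 1 ∧ ∀ p : ℝ, p₀ < p → p < 1 → ∃ v : ℝ → ℝ,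
      (∀ x, 0 < x → ∀ w, HasSpeed D p x w ↔ w = v x) ∧ R p v := by
  obtain ⟨p₁, a1, h1⟩ := h
  obtain ⟨p₂, a2, h2⟩ := speed D hD
  refine ⟨max p₁ p₂, max_lt a1 a2, fun p hp hp1 => ?_⟩
  obtain ⟨v, hv⟩ := h2 p ((le_max_right _ _).trans_lt hp) hp1
  exact ⟨v, hv, h1 p ((le_max_left _ _).trans_lt hp) hp1 v fun x hx => (hv x hx _).2 rfl⟩

end Pool.Agent.MP_8c549f_pr.EX
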